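import Mathlib

/-!
Definitions for the problem on orbit closures of higher rank class-`𝒜` actions (MP_e7dd50_an), for
the `ℚ`-group `SL₄` and the set of places `S = {∞}`.
-/

set_option autoImplicit false

namespace Pool.Agent.TH225.OC

open Matrix Filter Topology

/-- `G = SL(4, ℝ)`, the real points of the `ℚ`-group `SL₄`. -/
abbrev G : Type := Matrix.SpecialLinearGroup (Fin 4) ℝ

/-- `SL(4, ℂ)`, the complex points of the `ℚ`-group `SL₄`. -/
abbrev GC : Type := Matrix.SpecialLinearGroup (Fin 4) ℂ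

/-- `Γ = SL(4, ℤ)`, as a subgroup of `SL(4, ℝ)`. -/
def Gam : Subgroup G := (Matrix.SpecialLinearGroup.map (Int.castRingHom ℝ)).range

/-- The space `G/Γ = SL(4, ℝ)/SL(4, ℤ)`, with the quotient topology. -/
abbrev X : Type := G ⧸ Gam

/-- A `ℚ`-subgroup `𝕃` of the algebraic group `SL₄`: a set of polynomial equations with rational
coefficients in the sixteen matrix entries whose complex solutions in `SL(4, ℂ)` form a group. -/
structure QSubgroup where
  /-- the defining equations -/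
  eqs : Set (MvPolynomial (Fin 4 × Fin 4) ℚ)
  /-- the group `𝕃(ℂ)` of complex points -/
  grp : Subgroup GC
  mem_grp : ∀ g : GC, g ∈ grp ↔ ∀ p ∈ eqs,
    MvPolynomial.aeval (fun ij : Fin 4 × Fin 4 => (g : Matrix (Fin 4) (Fin 4) ℂ) ij.1 ij.2) p = 0

/-- The group `𝕃(ℝ) = 𝕃(ℂ) ∩ SL(4, ℝ)` of real points of a `ℚ`-subgroup. -/
noncomputable def QSubgroup.real (L : QSubgroup) : Subgroup G :=
  L.grp.comap (Matrix.SpecialLinearGroup.map (algebraMap ℝ ℂ))

/-- A `ℚ`-subgroup is proper if it is not all of `SL₄`. -/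
def QSubgroup.Proper (L : QSubgroup) : Prop := L.grp ≠ ⊤

/-- A topological group `B` is of higher rank if some homomorphism `ℤ² → B` is proper, `ℤ²` being
discrete: preimages of compact sets are compact, that is, finite. -/
def IsHigherRank (B : Type) [Group B] [TopologicalSpace B] : Prop :=
  ∃ φ : Multiplicative (ℤ × ℤ) →* B, ∀ K : Set B, IsCompact K → (φ ⁻¹' K).Finite

/-- A representation of `SL(4, ℝ)` is algebraic if its matrix coefficients are polynomials in the
matrix entries of the group element. -/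
def IsAlgebraicRep {m : ℕ} (ρ : G →* GL (Fin m) ℝ) : Prop :=
  ∀ i j, ∃ p : MvPolynomial (Fin 4 × Fin 4) ℝ, ∀ g : G,
    (ρ g : Matrix (Fin m) (Fin m) ℝ) i j =
      MvPolynomial.eval (fun kl : Fin 4 × Fin 4 => (g : Matrix (Fin 4) (Fin 4) ℝ) kl.1 kl.2) p

/-- `g ∈ SL(4, ℝ)` is of class-`𝒜`: it is diagonalizable over `ℝ`, it generates an unbounded
subgroup, and for the action on a projective space `ℙV` given by an algebraic representation `ρ`
on `V = ℝ^m` and every point `[v]` of it, every limit point `[w]` of `{gⁿ.[v] : n ∈ ℤ}` is fixed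
by `g`. Here `[w]` is a limit point of `{gⁿ.[v]}` when suitable multiples `c k • ρ(g^(n k)) v`
converge to `w`, for integers `n k` that tend to infinity in absolute value. -/
structure IsClassA (g : G) : Prop where
  diagonalizable : ∃ (P : GL (Fin 4) ℝ) (d : Fin 4 → ℝ),
    (g : Matrix (Fin 4) (Fin 4) ℝ) = (P : Matrix (Fin 4) (Fin 4) ℝ) * Matrix.diagonal d *
      ((P⁻¹ : GL (Fin 4) ℝ) : Matrix (Fin 4) (Fin 4) ℝ)
  unbounded : ¬ ∃ K : Set G, IsCompact K ∧ ∀ n : ℤ, g ^ n ∈ K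
  limit_fixed : ∀ (m : ℕ) (ρ : G →* GL (Fin m) ℝ), IsAlgebraicRep ρ →
    ∀ (v w : Fin m → ℝ) (n : ℕ → ℤ) (c : ℕ → ℝ), v ≠ 0 → w ≠ 0 → Tendsto n atTop cofinite →
      Tendsto (fun k => c k • ((ρ (g ^ n k) : Matrix (Fin m) (Fin m) ℝ) *ᵥ v)) atTop (𝓝 w) →
      ∃ r : ℝ, (ρ g : Matrix (Fin m) (Fin m) ℝ) *ᵥ w = r • w

/-- The orbit `A.x`. -/
def orb (A : Subgroup G) (x : X) : Set X := {y | ∃ a ∈ A, y = a • x}

/-- The set `g[𝕃(ℝ)] = g 𝕃(ℝ) Γ / Γ` in `G/Γ`. -/
def coset (g : G) (L : QSubgroup) : Set X := {y | ∃ l ∈ L.real, y = (QuotientGroup.mk (g * l) : X)}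

end Pool.Agent.TH225.OC
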