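import Mathlib

set_option autoImplicit false

namespace Pool.Agent.TH225.OC

open Polynomial

/-- three real roots of `x³ + x² - 2x - 1` -/
structure Roots (r : Fin 3 → ℝ) : Prop where
  root : ∀ i, r i ^ 3 + r i ^ 2 - 2 * r i - 1 = 0
  h0 : 1 < r 0
  h1 : -1 < r 1 ∧ r 1 < 0
  h2 : -2 < r 2 ∧ r 2 < -1

theorem exists_roots : ∃ r : Fin 3 → ℝ, Roots r := by
  have hc : Continuous (fun x : ℝ => x ^ 3 + x ^ 2 - 2 * x - 1) := by fun_prop
  have e0 : ∃ x : ℝ, x ∈ Set.Icc (1:ℝ) 2 ∧ x ^ 3 + x ^ 2 - 2 * x - 1 = 0 := by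
    have := intermediate_value_Icc (show (1:ℝ) ≤ 2 by norm_num) hc.continuousOn
    obtain ⟨x, hx, hx'⟩ := this (show (0:ℝ) ∈ _ by constructor <;> norm_num)
    exact ⟨x, hx, hx'⟩
  have e1 : ∃ x : ℝ, x ∈ Set.Icc (-1:ℝ) 0 ∧ x ^ 3 + x ^ 2 - 2 * x - 1 = 0 := by
    have := intermediate_value_Icc' (show (-1:ℝ) ≤ 0 by norm_num) hc.continuousOn
    obtain ⟨x, hx, hx'⟩ := this (show (0:ℝ) ∈ _ by constructor <;> norm_num)
    exact ⟨x, hx, hx'⟩
  have e2 : ∃ x : ℝ, x ∈ Set.Icc (-2:ℝ) (-1) ∧ x ^ 3 + x ^ 2 - 2 * x - 1 = 0 := by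
    have := intermediate_value_Icc (show (-2:ℝ) ≤ -1 by norm_num) hc.continuousOn
    obtain ⟨x, hx, hx'⟩ := this (show (0:ℝ) ∈ _ by constructor <;> norm_num)
    exact ⟨x, hx, hx'⟩
  obtain ⟨x0, ⟨h0, _⟩, hx0⟩ := e0
  obtain ⟨x1, ⟨h1, h1'⟩, hx1⟩ := e1
  obtain ⟨x2, ⟨h2, h2'⟩, hx2⟩ := e2
  refine ⟨![x0, x1, x2], ?_, ?_, ?_, ?_⟩
  · intro i
    fin_cases i
    · exact hx0
    · exact hx1
    · exact hx2
  · show 1 < x0
    refine lt_of_le_of_ne h0 (fun h => ?_)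
    rw [← h] at hx0; norm_num at hx0
  · show -1 < x1 ∧ x1 < 0
    refine ⟨lt_of_le_of_ne h1 (fun h => ?_), lt_of_le_of_ne h1' (fun h => ?_)⟩
    · rw [← h] at hx1; norm_num at hx1
    · rw [h] at hx1; norm_num at hx1
  · show -2 < x2 ∧ x2 < -1
    refine ⟨lt_of_le_of_ne h2 (fun h => ?_), lt_of_le_of_ne h2' (fun h => ?_)⟩
    · rw [← h] at hx2; norm_num at hx2
    · rw [h] at hx2; norm_num at hx2

/-- the polynomial -/
noncomputable def fQ : ℚ[X] := X ^ 3 + X ^ 2 - 2 * X - 1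

lemma fQ_monic : fQ.Monic := by
  unfold fQ
  monicity!

lemma fQ_natDegree : fQ.natDegree = 3 := by
  unfold fQ
  compute_degree!

lemma fQ_irred : Irreducible fQ := by
  rw [fQ_monic.irreducible_iff_roots_eq_zero_of_degree_le_three (by rw [fQ_natDegree]; norm_num)
    (by rw [fQ_natDegree])]
  rw [Multiset.eq_zero_iff_forall_notMem]
  intro q hq
  rw [mem_roots fQ_monic.ne_zero] at hq
  have h1 : q ^ 3 + q ^ 2 - 2 * q - 1 = 0 := by
    have := hq
    simp only [IsRoot, fQ, eval_sub, eval_add, eval_pow, eval_X, eval_mul, eval_ofNat, eval_one] at this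
    exact this
  -- q is an integer
  have h2 : ∃ n : ℤ, (n : ℚ) = q := by
    have hint : IsIntegral ℤ q := by
      refine ⟨X ^ 3 + X ^ 2 - 2 * X - 1, by monicity!, ?_⟩
      simp only [eval₂_sub, eval₂_add, eval₂_pow, eval₂_X, eval₂_mul, eval₂_ofNat, eval₂_one]
      exact h1
    exact IsIntegrallyClosed.isIntegral_iff.1 hint
  obtain ⟨n, rfl⟩ := h2
  have h3 : n ^ 3 + n ^ 2 - 2 * n - 1 = 0 := by exact_mod_cast h1
  have h4 : n * (n ^ 2 + n - 2) = 1 := by linarith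
  rcases Int.eq_one_or_neg_one_of_mul_eq_one h4 with h | h
  · rw [h] at h3; norm_num at h3
  · rw [h] at h3; norm_num at h3

lemma minpoly_root {r : Fin 3 → ℝ} (hr : Roots r) (i : Fin 3) : minpoly ℚ (r i) = fQ := by
  symm
  refine minpoly.eq_of_irreducible_of_monic fQ_irred ?_ fQ_monic
  unfold fQ
  simp only [map_sub, map_add, map_pow, aeval_X, map_mul, map_one, map_ofNat]
  exact hr.root i

/-- rational polynomial relations hold at all three roots at once -/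
lemma conj_root {r : Fin 3 → ℝ} (hr : Roots r) (i j : Fin 3) (c : ℚ[X])
    (h : aeval (r i) c = 0) : aeval (r j) c = 0 := by
  have h1 := minpoly.dvd ℚ (r i) h
  rw [minpoly_root hr, ← minpoly_root hr j] at h1
  obtain ⟨d, rfl⟩ := h1
  rw [map_mul, minpoly.aeval, zero_mul]

end Pool.Agent.TH225.OC
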