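import Mathlib
import Pool.Agent.TH225.OC.Defs
import Pool.Agent.TH225.OC.Roots

set_option autoImplicit false

namespace Pool.Agent.TH225.OC

open Matrix

/-- derivative of `x³ + x² - 2x - 1` -/
def fp (x : ℝ) : ℝ := 3 * x ^ 2 + 2 * x - 2

lemma root_ne {r : Fin 3 → ℝ} (hr : Roots r) {i j : Fin 3} (hij : i ≠ j) : r i ≠ r j := by
  have h0 := hr.h0
  have h1 := hr.h1
  have h2 := hr.h2
  fin_cases i <;> fin_cases j <;> simp at hij ⊢ <;> intro h <;> linarith

lemma cross {r : Fin 3 → ℝ} (hr : Roots r) {i j : Fin 3} (hij : i ≠ j) :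
    (r j ^ 2 + r j - 2) + r i * (r j + 1) + r i ^ 2 = 0 := by
  have h := sub_ne_zero.2 (root_ne hr hij)
  have hi := hr.root i
  have hj := hr.root j
  apply mul_left_cancel₀ h
  linear_combination hi - hj

lemma fp_ne {r : Fin 3 → ℝ} (hr : Roots r) (i : Fin 3) : fp (r i) ≠ 0 := by
  unfold fp
  -- f'(r i) = (r i - r j)(r i - r k)
  have e01 := cross hr (show (0:Fin 3) ≠ 1 by decide)
  have e12 := cross hr (show (1:Fin 3) ≠ 2 by decide)
  have e02 := cross hr (show (0:Fin 3) ≠ 2 by decide)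
  have h0 := hr.h0
  have h1 := hr.h1
  have h2 := hr.h2
  -- sum of the roots is -1
  have hs : r 0 + r 1 + r 2 = -1 := by
    have h := sub_ne_zero.2 (root_ne hr (show (1:Fin 3) ≠ 2 by decide))
    apply mul_left_cancel₀ h
    linear_combination e01 - e02
  have n01 := sub_ne_zero.2 (root_ne hr (show (0:Fin 3) ≠ 1 by decide))
  have n02 := sub_ne_zero.2 (root_ne hr (show (0:Fin 3) ≠ 2 by decide))
  have n12 := sub_ne_zero.2 (root_ne hr (show (1:Fin 3) ≠ 2 by decide))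
  have hp : r 0 * r 1 + r 0 * r 2 + r 1 * r 2 = -2 := by
    have : r 2 = -1 - r 0 - r 1 := by linarith
    rw [this]
    linear_combination -e01
  fin_cases i
  · show 3 * r 0 ^ 2 + 2 * r 0 - 2 ≠ 0
    have : 3 * r 0 ^ 2 + 2 * r 0 - 2 = (r 0 - r 1) * (r 0 - r 2) := by
      linear_combination (2 * r 0) * hs - hp
    rw [this]; exact mul_ne_zero n01 n02
  · show 3 * r 1 ^ 2 + 2 * r 1 - 2 ≠ 0
    have : 3 * r 1 ^ 2 + 2 * r 1 - 2 = - (r 0 - r 1) * (r 1 - r 2) := by
      linear_combination (2 * r 1) * hs - hp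
    rw [this]; exact mul_ne_zero (neg_ne_zero.2 n01) n12
  · show 3 * r 2 ^ 2 + 2 * r 2 - 2 ≠ 0
    have : 3 * r 2 ^ 2 + 2 * r 2 - 2 = (r 0 - r 2) * (r 1 - r 2) := by
      linear_combination (2 * r 2) * hs - hp
    rw [this]; exact mul_ne_zero n02 n12

/-- the eigenvector matrix (rows are left eigenvectors) -/
def H (r : Fin 3 → ℝ) : Matrix (Fin 4) (Fin 4) ℝ :=
  !![1, r 0, r 0 ^ 2, 0; 1, r 1, r 1 ^ 2, 0; 1, r 2, r 2 ^ 2, 0; 0, 0, 0, 1]

/-- its inverse -/
noncomputable def K (r : Fin 3 → ℝ) : Matrix (Fin 4) (Fin 4) ℝ :=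
  !![(r 0 ^ 2 + r 0 - 2) / fp (r 0), (r 1 ^ 2 + r 1 - 2) / fp (r 1), (r 2 ^ 2 + r 2 - 2) / fp (r 2), 0;
     (r 0 + 1) / fp (r 0), (r 1 + 1) / fp (r 1), (r 2 + 1) / fp (r 2), 0;
     1 / fp (r 0), 1 / fp (r 1), 1 / fp (r 2), 0; 0, 0, 0, 1]

lemma HK {r : Fin 3 → ℝ} (hr : Roots r) : H r * K r = 1 := by
  have f0 := fp_ne hr 0
  have f1 := fp_ne hr 1
  have f2 := fp_ne hr 2
  have e01 := cross hr (show (0:Fin 3) ≠ 1 by decide)
  have e12 := cross hr (show (1:Fin 3) ≠ 2 by decide)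
  have e02 := cross hr (show (0:Fin 3) ≠ 2 by decide)
  have e10 := cross hr (show (1:Fin 3) ≠ 0 by decide)
  have e21 := cross hr (show (2:Fin 3) ≠ 1 by decide)
  have e20 := cross hr (show (2:Fin 3) ≠ 0 by decide)
  ext i j
  fin_cases i <;> fin_cases j <;>
    simp [H, K, Matrix.mul_apply, Fin.sum_univ_four] <;> field_simp <;>
    first
      | linear_combination e01 | linear_combination e02 | linear_combination e12
      | linear_combination e10 | linear_combination e20 | linear_combination e21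
      | (unfold fp; ring)

lemma KH {r : Fin 3 → ℝ} (hr : Roots r) : K r * H r = 1 :=
  mul_eq_one_comm.1 (HK hr)

/-- `K M H` as an element of `SL(4, ℝ)` -/
noncomputable def cj {r : Fin 3 → ℝ} (hr : Roots r) (M : Matrix (Fin 4) (Fin 4) ℝ) (hM : M.det = 1) : G :=
  ⟨K r * M * H r, by
    rw [Matrix.det_mul, Matrix.det_mul, hM, mul_one, ← Matrix.det_mul, KH hr, Matrix.det_one]⟩

lemma cj_mul {r : Fin 3 → ℝ} (hr : Roots r) (M N : Matrix (Fin 4) (Fin 4) ℝ) (hM : M.det = 1)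
    (hN : N.det = 1) : cj hr M hM * cj hr N hN = cj hr (M * N) (by rw [Matrix.det_mul, hM, hN, one_mul]) := by
  apply Subtype.ext
  show K r * M * H r * (K r * N * H r) = K r * (M * N) * H r
  calc K r * M * H r * (K r * N * H r) = K r * M * (H r * K r) * N * H r := by
        simp only [Matrix.mul_assoc]
    _ = _ := by rw [HK hr, Matrix.mul_one]; simp only [Matrix.mul_assoc]

lemma H_cj_K {r : Fin 3 → ℝ} (hr : Roots r) (M : Matrix (Fin 4) (Fin 4) ℝ) (hM : M.det = 1) :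
    H r * (cj hr M hM : Matrix (Fin 4) (Fin 4) ℝ) * K r = M := by
  show H r * (K r * M * H r) * K r = M
  calc H r * (K r * M * H r) * K r = (H r * K r) * M * (H r * K r) := by simp only [Matrix.mul_assoc]
    _ = _ := by rw [HK hr, Matrix.mul_one, Matrix.one_mul]

lemma cj_congr {r : Fin 3 → ℝ} (hr : Roots r) {M N : Matrix (Fin 4) (Fin 4) ℝ} (hM : M.det = 1)
    (hN : N.det = 1) (h : M = N) : cj hr M hM = cj hr N hN := by
  subst h; rfl

/-- the matrices `D(s,t)` -/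
noncomputable def D (s t : ℝ) : Matrix (Fin 4) (Fin 4) ℝ :=
  !![Real.exp (t - 3 * s), 0, 0, 0; 0, Real.exp (-t - 3 * s), 0, 0;
     0, 0, (Real.exp (4 * s) + Real.exp (2 * s)) / 2, (Real.exp (4 * s) - Real.exp (2 * s)) / 2;
     0, 0, (Real.exp (4 * s) - Real.exp (2 * s)) / 2, (Real.exp (4 * s) + Real.exp (2 * s)) / 2]

lemma D_det (s t : ℝ) : (D s t).det = 1 := by
  simp only [D, Matrix.det_succ_row_zero, Fin.sum_univ_succ, Matrix.of_apply, Matrix.submatrix_apply]
  simp [Fin.succAbove, Fin.sum_univ_succ]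
  have e1 : Real.exp (4 * s) = Real.exp s ^ 4 := by rw [← Real.exp_nat_mul]; norm_num
  have e2 : Real.exp (2 * s) = Real.exp s ^ 2 := by rw [← Real.exp_nat_mul]; norm_num
  have e3 : Real.exp (t - 3 * s) = Real.exp t * (Real.exp s ^ 3)⁻¹ := by
    rw [Real.exp_sub, ← Real.exp_nat_mul]; norm_num; ring
  have e4 : Real.exp (-t - 3 * s) = (Real.exp t)⁻¹ * (Real.exp s ^ 3)⁻¹ := by
    rw [Real.exp_sub, ← Real.exp_nat_mul, Real.exp_neg]; norm_num; ring
  rw [e1, e2, e3, e4]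
  have := Real.exp_pos s
  have := Real.exp_pos t
  field_simp
  ring

lemma D_mul (s t s' t' : ℝ) : D s t * D s' t' = D (s + s') (t + t') := by
  have a1 : Real.exp (4 * (s + s')) = Real.exp (4 * s) * Real.exp (4 * s') := by
    rw [← Real.exp_add]; ring_nf
  have a2 : Real.exp (2 * (s + s')) = Real.exp (2 * s) * Real.exp (2 * s') := by
    rw [← Real.exp_add]; ring_nf
  have a3 : Real.exp (t + t' - 3 * (s + s')) = Real.exp (t - 3 * s) * Real.exp (t' - 3 * s') := by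
    rw [← Real.exp_add]; ring_nf
  have a4 : Real.exp (-(t + t') - 3 * (s + s')) = Real.exp (-t - 3 * s) * Real.exp (-t' - 3 * s') := by
    rw [← Real.exp_add]; ring_nf
  unfold D
  rw [a1, a2, a3, a4]
  ext i j
  fin_cases i <;> fin_cases j <;> simp [Matrix.mul_apply, Fin.sum_univ_four] <;> ring

lemma D_zero : D 0 0 = 1 := by
  ext i j
  fin_cases i <;> fin_cases j <;> simp [D, Matrix.one_apply]

/-- the matrices `M(u)` -/
noncomputable def M (u v : ℝ) : Matrix (Fin 4) (Fin 4) ℝ :=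
  !![Real.exp u, 0, 0, 0; 0, Real.exp v, 0, 0; 0, 0, Real.exp (-u - v), 0; 0, 0, 0, 1]

lemma M_det (u v : ℝ) : (M u v).det = 1 := by
  simp only [M, Matrix.det_succ_row_zero, Fin.sum_univ_succ, Matrix.of_apply, Matrix.submatrix_apply]
  simp [Fin.succAbove, Fin.sum_univ_succ]
  rw [← mul_assoc, ← Real.exp_add, ← Real.exp_add]
  simp

lemma M_mul (u v u' v' : ℝ) : M u v * M u' v' = M (u + u') (v + v') := by
  unfold M
  have a3 : Real.exp (-(u + u') - (v + v')) = Real.exp (-u - v) * Real.exp (-u' - v') := by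
    rw [← Real.exp_add]; ring_nf
  rw [a3, Real.exp_add, Real.exp_add]
  ext i j
  fin_cases i <;> fin_cases j <;> simp [Matrix.mul_apply, Fin.sum_univ_four]

lemma M_zero : M 0 0 = 1 := by
  ext i j
  fin_cases i <;> fin_cases j <;> simp [M, Matrix.one_apply]

lemma D_eq_M (t : ℝ) : D 0 t = M t (-t) := by
  ext i j
  fin_cases i <;> fin_cases j <;> simp [M, D]

end Pool.Agent.TH225.OC
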