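import Mathlib
import Pool.Agent.TH225.OC.Mat

set_option autoImplicit false

namespace Pool.Agent.TH225.OC

open Matrix Topology Filter

/-- a fixed choice of the three roots -/
noncomputable def rr : Fin 3 → ℝ := Classical.choose exists_roots

lemma hrr : Roots rr := Classical.choose_spec exists_roots

/-- the elements `K D(s,t) H` -/
noncomputable def al (s t : ℝ) : G := cj hrr (D s t) (D_det s t)

/-- the elements `K M(u,v) H` -/
noncomputable def be (u v : ℝ) : G := cj hrr (M u v) (M_det u v)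

lemma al_mul (s t s' t' : ℝ) : al s t * al s' t' = al (s + s') (t + t') := by
  unfold al
  rw [cj_mul]
  exact cj_congr hrr _ _ (D_mul s t s' t')

lemma be_mul (s t s' t' : ℝ) : be s t * be s' t' = be (s + s') (t + t') := by
  unfold be
  rw [cj_mul]
  exact cj_congr hrr _ _ (M_mul s t s' t')

lemma al_zero : al 0 0 = 1 := by
  apply Subtype.ext
  show K rr * D 0 0 * H rr = 1
  rw [D_zero, Matrix.mul_one, KH hrr]

lemma be_zero : be 0 0 = 1 := by
  apply Subtype.ext
  show K rr * M 0 0 * H rr = 1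
  rw [M_zero, Matrix.mul_one, KH hrr]

lemma al_inv (s t : ℝ) : (al s t)⁻¹ = al (-s) (-t) := by
  rw [inv_eq_iff_mul_eq_one, al_mul, add_neg_cancel, add_neg_cancel, al_zero]

lemma be_inv (s t : ℝ) : (be s t)⁻¹ = be (-s) (-t) := by
  rw [inv_eq_iff_mul_eq_one, be_mul, add_neg_cancel, add_neg_cancel, be_zero]

lemma al_eq_be (t : ℝ) : al 0 t = be t (-t) := by
  unfold al be
  exact cj_congr hrr _ _ (D_eq_M t)

lemma cj_continuous {Y : Type*} [TopologicalSpace Y] {f : Y → Matrix (Fin 4) (Fin 4) ℝ}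
    (hf : Continuous f) (h : ∀ y, (f y).det = 1) : Continuous fun y => cj hrr (f y) (h y) := by
  refine Continuous.subtype_mk ?_ _
  exact (continuous_const.matrix_mul hf).matrix_mul continuous_const

lemma D_continuous : Continuous fun p : ℝ × ℝ => D p.1 p.2 := by
  refine continuous_matrix ?_
  intro i j
  fin_cases i <;> fin_cases j <;> simp [D] <;> fun_prop

lemma M_continuous : Continuous fun p : ℝ × ℝ => M p.1 p.2 := by
  refine continuous_matrix ?_
  intro i j
  fin_cases i <;> fin_cases j <;> simp [M] <;> fun_prop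

lemma al_continuous : Continuous fun p : ℝ × ℝ => al p.1 p.2 := cj_continuous D_continuous _

lemma be_continuous : Continuous fun p : ℝ × ℝ => be p.1 p.2 := cj_continuous M_continuous _

/-- the group `A` -/
noncomputable def A : Subgroup G where
  carrier := {g | ∃ s t, g = al s t}
  mul_mem' := by
    rintro _ _ ⟨s, t, rfl⟩ ⟨s', t', rfl⟩
    exact ⟨_, _, al_mul s t s' t'⟩
  one_mem' := ⟨0, 0, al_zero.symm⟩
  inv_mem' := by
    rintro _ ⟨s, t, rfl⟩
    exact ⟨_, _, al_inv s t⟩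

lemma mem_A {g : G} : g ∈ A ↔ ∃ s t, g = al s t := Iff.rfl

lemma prod_roots {r : Fin 3 → ℝ} (hr : Roots r) :
    r 0 + r 1 + r 2 = -1 ∧ r 0 * r 1 + r 0 * r 2 + r 1 * r 2 = -2 ∧ r 0 * r 1 * r 2 = 1 := by
  have e01 := cross hr (show (0:Fin 3) ≠ 1 by decide)
  have e12 := cross hr (show (1:Fin 3) ≠ 2 by decide)
  have e02 := cross hr (show (0:Fin 3) ≠ 2 by decide)
  have hs : r 0 + r 1 + r 2 = -1 := by
    have h := sub_ne_zero.2 (root_ne hr (show (1:Fin 3) ≠ 2 by decide))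
    apply mul_left_cancel₀ h
    linear_combination e01 - e02
  have hp : r 0 * r 1 + r 0 * r 2 + r 1 * r 2 = -2 := by
    have : r 2 = -1 - r 0 - r 1 := by linarith
    rw [this]
    linear_combination -e01
  refine ⟨hs, hp, ?_⟩
  have h0 := hr.root 0
  linear_combination (r 0) * hp - (r 0 ^ 2) * hs + h0

lemma M_log {x y z : ℝ} (hx : 0 < x) (hy : 0 < y) (h : x * y * z = 1) :
    M (Real.log x) (Real.log y) = !![x, 0, 0, 0; 0, y, 0, 0; 0, 0, z, 0; 0, 0, 0, 1] := by
  unfold M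
  rw [Real.exp_log hx, Real.exp_log hy, sub_eq_add_neg, Real.exp_add, Real.exp_neg, Real.exp_neg,
    Real.exp_log hx, Real.exp_log hy]
  have : x⁻¹ * y⁻¹ = z := by
    field_simp
    linarith
  rw [this]

/-- multiplication by `ρ²` -/
def c1 : Matrix.SpecialLinearGroup (Fin 4) ℤ :=
  ⟨!![0, 1, -1, 0; 0, 2, -1, 0; 1, -1, 3, 0; 0, 0, 0, 1], by decide⟩

/-- multiplication by `(1+ρ)²` -/
def c2 : Matrix.SpecialLinearGroup (Fin 4) ℤ :=
  ⟨!![1, 1, 1, 0; 2, 3, 3, 0; 1, 1, 2, 0; 0, 0, 0, 1], by decide⟩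

lemma c1_coe : ((Matrix.SpecialLinearGroup.map (Int.castRingHom ℝ) c1 : G) : Matrix (Fin 4) (Fin 4) ℝ) =
    !![0, 1, -1, 0; 0, 2, -1, 0; 1, -1, 3, 0; 0, 0, 0, 1] := by
  rw [Matrix.SpecialLinearGroup.map_apply_coe]
  ext i j
  fin_cases i <;> fin_cases j <;> simp [c1]

lemma c2_coe : ((Matrix.SpecialLinearGroup.map (Int.castRingHom ℝ) c2 : G) : Matrix (Fin 4) (Fin 4) ℝ) =
    !![1, 1, 1, 0; 2, 3, 3, 0; 1, 1, 2, 0; 0, 0, 0, 1] := by
  rw [Matrix.SpecialLinearGroup.map_apply_coe]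
  ext i j
  fin_cases i <;> fin_cases j <;> simp [c2]

lemma rr_sq_pos (i : Fin 3) : 0 < rr i ^ 2 := by
  have h := hrr
  have h0 := h.h0
  have h1 := h.h1
  have h2 := h.h2
  have : rr i ≠ 0 := by
    fin_cases i
    · show rr 0 ≠ 0
      linarith
    · show rr 1 ≠ 0
      linarith [h1.2]
    · show rr 2 ≠ 0
      linarith [h2.2]
  positivity

lemma rr1_sq_pos (i : Fin 3) : 0 < (1 + rr i) ^ 2 := by
  have h := hrr
  have h0 := h.h0
  have h1 := h.h1
  have h2 := h.h2
  have : 1 + rr i ≠ 0 := by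
    fin_cases i
    · show 1 + rr 0 ≠ 0
      linarith
    · show 1 + rr 1 ≠ 0
      linarith [h1.1]
    · show 1 + rr 2 ≠ 0
      linarith [h2.2]
  positivity

lemma be_c1 : be (Real.log (rr 0 ^ 2)) (Real.log (rr 1 ^ 2)) =
    Matrix.SpecialLinearGroup.map (Int.castRingHom ℝ) c1 := by
  obtain ⟨hs, hp, hq⟩ := prod_roots hrr
  apply Subtype.ext
  rw [c1_coe]
  show K rr * M (Real.log (rr 0 ^ 2)) (Real.log (rr 1 ^ 2)) * H rr = _
  rw [M_log (z := rr 2 ^ 2) (rr_sq_pos 0) (rr_sq_pos 1) (by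
    calc rr 0 ^ 2 * rr 1 ^ 2 * rr 2 ^ 2 = (rr 0 * rr 1 * rr 2) ^ 2 := by ring
      _ = 1 := by rw [hq]; norm_num)]
  rw [Matrix.mul_assoc]
  have key : (!![rr 0 ^ 2, 0, 0, 0; 0, rr 1 ^ 2, 0, 0; 0, 0, rr 2 ^ 2, 0; 0, 0, 0, 1] :
      Matrix (Fin 4) (Fin 4) ℝ) * H rr = H rr *
      !![0, 1, -1, 0; 0, 2, -1, 0; 1, -1, 3, 0; 0, 0, 0, 1] := by
    have e0 := hrr.root 0
    have e1 := hrr.root 1
    have e2 := hrr.root 2
    ext i j
    fin_cases i <;> fin_cases j <;>
      simp [H, Matrix.mul_apply, Fin.sum_univ_four] <;>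
      first
        | done
        | linear_combination e0
        | linear_combination e1
        | linear_combination e2
        | linear_combination (rr 0 - 1) * e0
        | linear_combination (rr 1 - 1) * e1
        | linear_combination (rr 2 - 1) * e2
  rw [key, ← Matrix.mul_assoc, KH hrr, Matrix.one_mul]

lemma be_c2 : be (Real.log ((1 + rr 0) ^ 2)) (Real.log ((1 + rr 1) ^ 2)) =
    Matrix.SpecialLinearGroup.map (Int.castRingHom ℝ) c2 := by
  obtain ⟨hs, hp, hq⟩ := prod_roots hrr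
  apply Subtype.ext
  rw [c2_coe]
  show K rr * M (Real.log ((1 + rr 0) ^ 2)) (Real.log ((1 + rr 1) ^ 2)) * H rr = _
  rw [M_log (z := (1 + rr 2) ^ 2) (rr1_sq_pos 0) (rr1_sq_pos 1) (by
    calc (1 + rr 0) ^ 2 * (1 + rr 1) ^ 2 * (1 + rr 2) ^ 2
        = ((1 + rr 0) * (1 + rr 1) * (1 + rr 2)) ^ 2 := by ring
      _ = 1 := by
        have : (1 + rr 0) * (1 + rr 1) * (1 + rr 2) = -1 := by
          linear_combination hs + hp + hq
        rw [this]; norm_num)]
  rw [Matrix.mul_assoc]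
  have key : (!![(1 + rr 0) ^ 2, 0, 0, 0; 0, (1 + rr 1) ^ 2, 0, 0; 0, 0, (1 + rr 2) ^ 2, 0; 0, 0, 0, 1] :
      Matrix (Fin 4) (Fin 4) ℝ) * H rr = H rr *
      !![1, 1, 1, 0; 2, 3, 3, 0; 1, 1, 2, 0; 0, 0, 0, 1] := by
    have e0 := hrr.root 0
    have e1 := hrr.root 1
    have e2 := hrr.root 2
    ext i j
    fin_cases i <;> fin_cases j <;>
      simp [H, Matrix.mul_apply, Fin.sum_univ_four] <;>
      first
        | done
        | linear_combination (0:ℝ) * e0
        | linear_combination e0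
        | linear_combination e1
        | linear_combination e2
        | linear_combination (rr 0 + 1) * e0
        | linear_combination (rr 1 + 1) * e1
        | linear_combination (rr 2 + 1) * e2
  rw [key, ← Matrix.mul_assoc, KH hrr, Matrix.one_mul]

lemma al_cont2 {Y : Type*} [TopologicalSpace Y] {f g : Y → ℝ} (hf : Continuous f)
    (hg : Continuous g) : Continuous fun y => al (f y) (g y) :=
  (al_continuous.comp (hf.prodMk hg) :)

lemma be_cont2 {Y : Type*} [TopologicalSpace Y] {f g : Y → ℝ} (hf : Continuous f)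
    (hg : Continuous g) : Continuous fun y => be (f y) (g y) :=
  (be_continuous.comp (hf.prodMk hg) :)

lemma al_coe (s t : ℝ) : (al s t : Matrix (Fin 4) (Fin 4) ℝ) = K rr * D s t * H rr := rfl

lemma be_coe (s t : ℝ) : (be s t : Matrix (Fin 4) (Fin 4) ℝ) = K rr * M s t * H rr := rfl

end Pool.Agent.TH225.OC
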