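import Mathlib
import Pool.Agent.Helper813.SL4
import Pool.Agent.TH225.OC.Grp

set_option autoImplicit false

namespace Pool.Agent.TH225.OC

open Matrix Topology Filter
open Pool.Agent.Helper813 (tv sl_induction tv_comm)

section generic

variable {R : Type*} [CommRing R]

/-- unipotent matrices in the last column -/
def Wg (x y : R) : Matrix.SpecialLinearGroup (Fin 4) R :=
  ⟨!![1, 0, 0, y * (x ^ 2 + x - 2); 0, 1, 0, y * (x + 1); 0, 0, 1, y; 0, 0, 0, 1], by
    simp only [Matrix.det_succ_row_zero, Fin.sum_univ_succ, Matrix.of_apply, Matrix.submatrix_apply]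
    simp [Fin.succAbove]⟩

/-- unipotent matrices in the last row -/
def Vg (x y : R) : Matrix.SpecialLinearGroup (Fin 4) R :=
  ⟨!![1, 0, 0, 0; 0, 1, 0, 0; 0, 0, 1, 0; y, y * x, y * x ^ 2, 1], by
    simp only [Matrix.det_succ_row_zero, Fin.sum_univ_succ, Matrix.of_apply, Matrix.submatrix_apply]
    simp [Fin.succAbove]⟩

lemma map_Wg {S : Type*} [CommRing S] (f : R →+* S) (x y : R) :
    Matrix.SpecialLinearGroup.map f (Wg x y) = Wg (f x) (f y) := by
  apply Subtype.ext
  rw [Matrix.SpecialLinearGroup.map_apply_coe]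
  ext i j
  fin_cases i <;> fin_cases j <;> simp [Wg, map_ofNat]

lemma map_Vg {S : Type*} [CommRing S] (f : R →+* S) (x y : R) :
    Matrix.SpecialLinearGroup.map f (Vg x y) = Vg (f x) (f y) := by
  apply Subtype.ext
  rw [Matrix.SpecialLinearGroup.map_apply_coe]
  ext i j
  fin_cases i <;> fin_cases j <;> simp [Vg]

end generic

/-- the value of a rational polynomial at a matrix over a `ℚ`-algebra -/
noncomputable def pev {R : Type*} [CommRing R] [Algebra ℚ R] (p : MvPolynomial (Fin 4 × Fin 4) ℚ)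
    (g : Matrix.SpecialLinearGroup (Fin 4) R) : R :=
  MvPolynomial.aeval (fun ij : Fin 4 × Fin 4 => (g : Matrix (Fin 4) (Fin 4) R) ij.1 ij.2) p

lemma pev_map {R S : Type*} [CommRing R] [Algebra ℚ R] [CommRing S] [Algebra ℚ S] (f : R →+* S)
    (p : MvPolynomial (Fin 4 × Fin 4) ℚ) (g : Matrix.SpecialLinearGroup (Fin 4) R) :
    pev p (Matrix.SpecialLinearGroup.map f g) = f (pev p g) := by
  have h : f.comp (MvPolynomial.aeval (fun ij : Fin 4 × Fin 4 => (g : Matrix (Fin 4) (Fin 4) R) ij.1 ij.2) :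
      MvPolynomial (Fin 4 × Fin 4) ℚ →ₐ[ℚ] R).toRingHom = (MvPolynomial.aeval (fun ij : Fin 4 × Fin 4 =>
      ((Matrix.SpecialLinearGroup.map f g : Matrix.SpecialLinearGroup (Fin 4) S) :
        Matrix (Fin 4) (Fin 4) S) ij.1 ij.2) : MvPolynomial (Fin 4 × Fin 4) ℚ →ₐ[ℚ] S).toRingHom := by
    apply MvPolynomial.ringHom_ext
    · intro q
      simp only [AlgHom.toRingHom_eq_coe, RingHom.coe_comp, RingHom.coe_coe, Function.comp_apply,
        MvPolynomial.aeval_C]
      exact congrFun (congrArg DFunLike.coe (RingHom.ext_rat (f.comp (algebraMap ℚ R)) (algebraMap ℚ S))) q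
    · intro ij
      simp only [AlgHom.toRingHom_eq_coe, RingHom.coe_comp, RingHom.coe_coe, Function.comp_apply,
        MvPolynomial.aeval_X]
      rw [Matrix.SpecialLinearGroup.map_apply_coe]
      rfl
  exact (congrFun (congrArg DFunLike.coe h) p).symm

lemma mem_real (L : QSubgroup) (g : G) : g ∈ L.real ↔ ∀ p ∈ L.eqs, pev p g = 0 := by
  unfold QSubgroup.real
  rw [Subgroup.mem_comap, L.mem_grp]
  refine forall₂_congr fun p _ => ?_
  have h : pev p (Matrix.SpecialLinearGroup.map (algebraMap ℝ ℂ) g) = (algebraMap ℝ ℂ) (pev p g) :=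
    pev_map _ p g
  constructor
  · intro h1
    have h2 : (algebraMap ℝ ℂ) (pev p g) = 0 := by rw [← h]; exact h1
    exact (map_eq_zero _).1 h2
  · intro h1
    rw [h1, map_zero] at h
    exact h

lemma pev_continuous (p : MvPolynomial (Fin 4 × Fin 4) ℚ) : Continuous fun g : G => pev p g := by
  have h1 : Continuous fun x : Fin 4 × Fin 4 → ℝ => MvPolynomial.aeval x p := by
    have : (fun x : Fin 4 × Fin 4 → ℝ => MvPolynomial.aeval x p) =
        fun x => MvPolynomial.eval x (MvPolynomial.map (algebraMap ℚ ℝ) p) := by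
      ext x
      rw [MvPolynomial.eval_map, MvPolynomial.aeval_def]
    rw [this]
    exact MvPolynomial.continuous_eval _
  refine h1.comp ?_
  exact continuous_pi fun ij => continuous_subtype_val.matrix_elem ij.1 ij.2

lemma real_closed (L : QSubgroup) : IsClosed (L.real : Set G) := by
  have : (L.real : Set G) = ⋂ p ∈ L.eqs, {g : G | pev p g = 0} := by
    ext g
    simp only [SetLike.mem_coe, mem_real, Set.mem_iInter, Set.mem_ofPred_eq]
  rw [this]
  exact isClosed_biInter fun p _ => isClosed_eq (pev_continuous p) continuous_const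

open Polynomial in
/-- polynomial identities in `y` over `ℚ(ρ)` are invariant under conjugation -/
lemma conj_poly (i j : Fin 3) (c : ℚ[X][X])
    (h : ∀ y : ℝ, Polynomial.eval₂ ((Polynomial.aeval (rr i) : ℚ[X] →ₐ[ℚ] ℝ) : ℚ[X] →+* ℝ) y c = 0) (y : ℝ) :
    Polynomial.eval₂ ((Polynomial.aeval (rr j) : ℚ[X] →ₐ[ℚ] ℝ) : ℚ[X] →+* ℝ) y c = 0 := by
  have h1 : c.map ((Polynomial.aeval (rr i) : ℚ[X] →ₐ[ℚ] ℝ) : ℚ[X] →+* ℝ) = 0 := by
    apply Polynomial.funext
    intro z
    rw [Polynomial.eval_map, h z, Polynomial.eval_zero]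
  have h2 : c.map ((Polynomial.aeval (rr j) : ℚ[X] →ₐ[ℚ] ℝ) : ℚ[X] →+* ℝ) = 0 := by
    ext k
    have h3 := congrArg (fun q => Polynomial.coeff q k) h1
    simp only [Polynomial.coeff_map, Polynomial.coeff_zero, RingHom.coe_coe] at h3 ⊢
    exact conj_root hrr i j _ h3
  rw [← Polynomial.eval_map, h2, Polynomial.eval_zero]

/-- the conjugate `{x : γ x γ⁻¹ ∈ L(ℝ)}` -/
noncomputable def cjN (L : QSubgroup) (γ : G) : Subgroup G := L.real.comap (MulAut.conj γ).toMonoidHom

lemma mem_cjN {L : QSubgroup} {γ x : G} : x ∈ cjN L γ ↔ γ * x * γ⁻¹ ∈ L.real := Iff.rfl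

lemma cjN_closed (L : QSubgroup) (γ : G) : IsClosed (cjN L γ : Set G) :=
  (real_closed L).preimage ((continuous_const.mul continuous_id).mul continuous_const)

open Polynomial in
lemma conj_family (L : QSubgroup) (γ0 : Matrix.SpecialLinearGroup (Fin 4) ℤ)
    (T : Matrix.SpecialLinearGroup (Fin 4) ℚ[X][X]) (i j : Fin 3)
    (h : ∀ y : ℝ, Matrix.SpecialLinearGroup.map (Polynomial.eval₂RingHom
      ((Polynomial.aeval (rr i) : ℚ[X] →ₐ[ℚ] ℝ) : ℚ[X] →+* ℝ) y) T ∈
      cjN L (Matrix.SpecialLinearGroup.map (Int.castRingHom ℝ) γ0)) (y : ℝ) :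
    Matrix.SpecialLinearGroup.map (Polynomial.eval₂RingHom
      ((Polynomial.aeval (rr j) : ℚ[X] →ₐ[ℚ] ℝ) : ℚ[X] →+* ℝ) y) T ∈
      cjN L (Matrix.SpecialLinearGroup.map (Int.castRingHom ℝ) γ0) := by
  have key : ∀ (i : Fin 3) (y : ℝ), Matrix.SpecialLinearGroup.map (Int.castRingHom ℝ) γ0 *
      Matrix.SpecialLinearGroup.map (Polynomial.eval₂RingHom
      ((Polynomial.aeval (rr i) : ℚ[X] →ₐ[ℚ] ℝ) : ℚ[X] →+* ℝ) y) T *
      (Matrix.SpecialLinearGroup.map (Int.castRingHom ℝ) γ0)⁻¹ =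
      Matrix.SpecialLinearGroup.map (Polynomial.eval₂RingHom
      ((Polynomial.aeval (rr i) : ℚ[X] →ₐ[ℚ] ℝ) : ℚ[X] →+* ℝ) y)
      (Matrix.SpecialLinearGroup.map (Int.castRingHom ℚ[X][X]) γ0 * T *
        (Matrix.SpecialLinearGroup.map (Int.castRingHom ℚ[X][X]) γ0)⁻¹) := by
    intro i y
    rw [map_mul, map_mul, map_inv]
    have h1 : Matrix.SpecialLinearGroup.map (Polynomial.eval₂RingHom
      ((Polynomial.aeval (rr i) : ℚ[X] →ₐ[ℚ] ℝ) : ℚ[X] →+* ℝ) y)
      (Matrix.SpecialLinearGroup.map (Int.castRingHom ℚ[X][X]) γ0) =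
        Matrix.SpecialLinearGroup.map (Int.castRingHom ℝ) γ0 := by
      apply Subtype.ext
      rw [Matrix.SpecialLinearGroup.map_apply_coe, Matrix.SpecialLinearGroup.map_apply_coe,
        Matrix.SpecialLinearGroup.map_apply_coe]
      ext k l
      exact congrFun (congrArg DFunLike.coe (RingHom.ext_int ((Polynomial.eval₂RingHom
        ((Polynomial.aeval (rr i) : ℚ[X] →ₐ[ℚ] ℝ) : ℚ[X] →+* ℝ) y).comp (Int.castRingHom ℚ[X][X]))
        (Int.castRingHom ℝ))) (γ0.1 k l)
    rw [h1]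
  rw [mem_cjN, mem_real]
  intro p hp
  rw [key, pev_map]
  refine conj_poly i j _ ?_ y
  intro z
  have h2 := h z
  rw [mem_cjN, mem_real] at h2
  have h3 := h2 p hp
  rw [key, pev_map] at h3
  exact h3

lemma conj_W (L : QSubgroup) (γ0 : Matrix.SpecialLinearGroup (Fin 4) ℤ) (i j : Fin 3)
    (h : ∀ y : ℝ, Wg (rr i) y ∈ cjN L (Matrix.SpecialLinearGroup.map (Int.castRingHom ℝ) γ0)) (y : ℝ) :
    Wg (rr j) y ∈ cjN L (Matrix.SpecialLinearGroup.map (Int.castRingHom ℝ) γ0) := by
  have key : ∀ (i : Fin 3) (y : ℝ), Matrix.SpecialLinearGroup.map (Polynomial.eval₂RingHom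
      ((Polynomial.aeval (rr i) : Polynomial ℚ →ₐ[ℚ] ℝ) : Polynomial ℚ →+* ℝ) y)
      (Wg (Polynomial.C Polynomial.X) Polynomial.X) = Wg (rr i) y := by
    intro i y
    rw [map_Wg]
    simp
  have := conj_family L γ0 (Wg (Polynomial.C Polynomial.X) Polynomial.X) i j (fun y => by
    rw [key]; exact h y) y
  rwa [key] at this

lemma conj_V (L : QSubgroup) (γ0 : Matrix.SpecialLinearGroup (Fin 4) ℤ) (i j : Fin 3)
    (h : ∀ y : ℝ, Vg (rr i) y ∈ cjN L (Matrix.SpecialLinearGroup.map (Int.castRingHom ℝ) γ0)) (y : ℝ) :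
    Vg (rr j) y ∈ cjN L (Matrix.SpecialLinearGroup.map (Int.castRingHom ℝ) γ0) := by
  have key : ∀ (i : Fin 3) (y : ℝ), Matrix.SpecialLinearGroup.map (Polynomial.eval₂RingHom
      ((Polynomial.aeval (rr i) : Polynomial ℚ →ₐ[ℚ] ℝ) : Polynomial ℚ →+* ℝ) y)
      (Vg (Polynomial.C Polynomial.X) Polynomial.X) = Vg (rr i) y := by
    intro i y
    rw [map_Vg]
    simp
  have := conj_family L γ0 (Vg (Polynomial.C Polynomial.X) Polynomial.X) i j (fun y => by
    rw [key]; exact h y) y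
  rwa [key] at this

/-- the real points of a proper `ℚ`-subgroup are not everything -/
lemma grp_top_of_real_top (L : QSubgroup) (h : L.real = ⊤) : L.grp = ⊤ := by
  refine le_antisymm le_top (fun x _ => ?_)
  refine sl_induction (fun x => x ∈ L.grp) ?_ (fun A B => mul_mem) x
  intro i j hij z
  rw [L.mem_grp]
  intro p hp
  -- the polynomial in one variable
  let T : Matrix.SpecialLinearGroup (Fin 4) (Polynomial ℚ) :=
    Matrix.SpecialLinearGroup.transvection hij Polynomial.X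
  have hmap : ∀ (S : Type) [Field S] [Algebra ℚ S] (y : S),
      Matrix.SpecialLinearGroup.map ((Polynomial.aeval y : Polynomial ℚ →ₐ[ℚ] S) : Polynomial ℚ →+* S) T =
      Matrix.SpecialLinearGroup.transvection hij y := by
    intro S _ _ y
    apply Subtype.ext
    rw [Matrix.SpecialLinearGroup.map_apply_coe]
    ext k l
    simp only [T, Matrix.SpecialLinearGroup.transvection, Matrix.transvection, RingHom.mapMatrix_apply,
      Matrix.map_apply, Matrix.add_apply, Matrix.one_apply, Matrix.single_apply]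
    split_ifs <;> simp
  have hc : pev p T = 0 := by
    have h1 : (pev p T).map (algebraMap ℚ ℝ) = 0 := by
      apply Polynomial.funext
      intro y
      rw [Polynomial.eval_map, Polynomial.eval_zero]
      have h2 : (Matrix.SpecialLinearGroup.transvection hij y : G) ∈ L.real := by rw [h]; trivial
      rw [mem_real] at h2
      have h3 := h2 p hp
      rw [← hmap ℝ y, pev_map] at h3
      exact h3
    exact (Polynomial.map_eq_zero_iff (algebraMap ℚ ℝ).injective).1 h1
  show pev p (tv hij z) = 0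
  have h4 : tv hij z = Matrix.SpecialLinearGroup.map
    ((Polynomial.aeval z : Polynomial ℚ →ₐ[ℚ] ℂ) : Polynomial ℚ →+* ℂ) T := (hmap ℂ z).symm
  rw [h4, pev_map, hc, map_zero]

lemma cjN_top {L : QSubgroup} {γ : G} (h : cjN L γ = ⊤) : L.real = ⊤ := by
  refine le_antisymm le_top (fun x _ => ?_)
  have h1 : γ⁻¹ * x * γ ∈ cjN L γ := by rw [h]; trivial
  rw [mem_cjN] at h1
  have : γ * (γ⁻¹ * x * γ) * γ⁻¹ = x := by group
  rwa [this] at h1

end Pool.Agent.TH225.OC
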