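import Mathlib
import Pool.Agent.TH225.OC.Grp

set_option autoImplicit false

namespace Pool.Agent.TH225.OC

open Matrix Topology Filter

lemma rel_indep (m n : ℕ) (hm : 0 < m) (hn : 0 < n) :
    (rr 2 ^ 2) ^ m * ((1 + rr 2) ^ 2) ^ n ≠ 1 := by
  intro h
  have h1 : Polynomial.aeval (rr 2)
      ((Polynomial.X ^ 2) ^ m * ((1 + Polynomial.X) ^ 2) ^ n - 1 : Polynomial ℚ) = 0 := by
    simp only [map_sub, map_mul, map_pow, map_add, map_one, Polynomial.aeval_X]
    rw [h, sub_self]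
  have h2 := conj_root hrr 2 0 _ h1
  simp only [map_sub, map_mul, map_pow, map_add, map_one, Polynomial.aeval_X] at h2
  have h0 := hrr.h0
  have a1 : 1 < (rr 0 ^ 2) ^ m := one_lt_pow₀ (by nlinarith) hm.ne'
  have a2 : 1 < ((1 + rr 0) ^ 2) ^ n := one_lt_pow₀ (by nlinarith) hn.ne'
  nlinarith

lemma dense_vals : Dense {y : ℝ | ∃ k l : ℤ, y = k * Real.log (rr 2 ^ 2) + l * Real.log ((1 + rr 2) ^ 2)} := by
  set a := Real.log (rr 2 ^ 2) with ha
  set b := Real.log ((1 + rr 2) ^ 2) with hb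
  have h2 := hrr.h2
  have apos : 0 < a := Real.log_pos (by nlinarith)
  have bneg : b < 0 := Real.log_neg (rr1_sq_pos 2) (by nlinarith)
  let S : AddSubgroup ℝ := AddSubgroup.closure {a, b}
  have hS : (S : Set ℝ) = {y : ℝ | ∃ k l : ℤ, y = k * a + l * b} := by
    ext y
    simp only [S, SetLike.mem_coe, AddSubgroup.mem_closure_pair, Set.mem_ofPred_eq, zsmul_eq_mul]
    constructor
    · rintro ⟨k, l, h⟩; exact ⟨k, l, h.symm⟩
    · rintro ⟨k, l, h⟩; exact ⟨k, l, h.symm⟩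
  rw [← hS]
  rcases AddSubgroup.dense_or_cyclic S with h | ⟨c, hc⟩
  · exact h
  · exfalso
    have ma : a ∈ AddSubgroup.closure {c} := by
      rw [← hc]; exact AddSubgroup.subset_closure (by simp)
    have mb : b ∈ AddSubgroup.closure {c} := by
      rw [← hc]; exact AddSubgroup.subset_closure (by simp)
    rw [AddSubgroup.mem_closure_singleton] at ma mb
    obtain ⟨p, hp⟩ := ma
    obtain ⟨q, hq⟩ := mb
    rw [zsmul_eq_mul] at hp hq
    -- q a = p b
    have hpq : (q : ℝ) * a = p * b := by rw [← hp, ← hq]; ring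
    have hp0 : p ≠ 0 := by rintro rfl; simp at hp; linarith
    have hq0 : q ≠ 0 := by rintro rfl; simp at hq; linarith
    -- positive relation
    have key : ∃ m n : ℕ, 0 < m ∧ 0 < n ∧ (m : ℝ) * a + n * b = 0 := by
      refine ⟨q.natAbs, p.natAbs, Int.natAbs_pos.2 hq0, Int.natAbs_pos.2 hp0, ?_⟩
      have e1 : ((q.natAbs : ℕ) : ℝ) = |(q : ℝ)| := by
        rw [← Int.cast_abs, Nat.cast_natAbs]
      have e2 : ((p.natAbs : ℕ) : ℝ) = |(p : ℝ)| := by
        rw [← Int.cast_abs, Nat.cast_natAbs]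
      rw [e1, e2]
      rcases lt_or_gt_of_ne hq0 with h | h
      · have hq' : (q : ℝ) < 0 := by exact_mod_cast h
        have hp' : 0 < (p : ℝ) := by
          by_contra hcon
          push Not at hcon
          nlinarith [mul_nonneg_of_nonpos_of_nonpos hcon bneg.le, mul_neg_of_neg_of_pos hq' apos]
        rw [abs_of_neg hq', abs_of_pos hp']; linarith
      · have hq' : 0 < (q : ℝ) := by exact_mod_cast h
        have hp' : (p : ℝ) < 0 := by
          by_contra hcon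
          push Not at hcon
          nlinarith [mul_nonpos_of_nonneg_of_nonpos hcon bneg.le, mul_pos hq' apos]
        rw [abs_of_pos hq', abs_of_neg hp']; linarith
    obtain ⟨m, n, hm, hn, hmn⟩ := key
    apply rel_indep m n hm hn
    have h3 := congrArg Real.exp hmn
    rw [Real.exp_add, Real.exp_zero, Real.exp_nat_mul, Real.exp_nat_mul, ha, hb,
      Real.exp_log (rr_sq_pos 2), Real.exp_log (rr1_sq_pos 2)] at h3
    exact h3

/-- the one-parameter groups as homomorphisms -/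
noncomputable def beHom : Multiplicative (ℝ × ℝ) →* G where
  toFun x := be (Multiplicative.toAdd x).1 (Multiplicative.toAdd x).2
  map_one' := be_zero
  map_mul' x y := (be_mul _ _ _ _).symm

lemma be_zpow (u v : ℝ) (k : ℤ) : be u v ^ k = be (k * u) (k * v) := by
  have h := map_zpow beHom (Multiplicative.ofAdd (u, v)) k
  have h1 : beHom (Multiplicative.ofAdd (u, v) ^ k) = be (k * u) (k * v) := by
    rw [← ofAdd_zsmul]
    show be (k • (u, v)).1 (k • (u, v)).2 = _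
    simp [zsmul_eq_mul]
  rw [← h1, h]
  rfl

lemma be_int_mem (k l : ℤ) :
    be (k * Real.log (rr 0 ^ 2) + l * Real.log ((1 + rr 0) ^ 2))
      (k * Real.log (rr 1 ^ 2) + l * Real.log ((1 + rr 1) ^ 2)) ∈ Gam := by
  rw [← be_mul, ← be_zpow, ← be_zpow, be_c1, be_c2]
  have m1 : (Matrix.SpecialLinearGroup.map (Int.castRingHom ℝ) c1 : G) ∈ Gam := ⟨c1, rfl⟩
  have m2 : (Matrix.SpecialLinearGroup.map (Int.castRingHom ℝ) c2 : G) ∈ Gam := ⟨c2, rfl⟩
  exact mul_mem (zpow_mem m1 k) (zpow_mem m2 l)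

lemma log_sum : Real.log (rr 0 ^ 2) + Real.log (rr 1 ^ 2) = - Real.log (rr 2 ^ 2) ∧
    Real.log ((1 + rr 0) ^ 2) + Real.log ((1 + rr 1) ^ 2) = - Real.log ((1 + rr 2) ^ 2) := by
  obtain ⟨hs, hp, hq⟩ := prod_roots hrr
  constructor
  · rw [← Real.log_mul (rr_sq_pos 0).ne' (rr_sq_pos 1).ne', ← Real.log_inv]
    congr 1
    refine eq_inv_of_mul_eq_one_left ?_
    calc rr 0 ^ 2 * rr 1 ^ 2 * rr 2 ^ 2 = (rr 0 * rr 1 * rr 2) ^ 2 := by ring
      _ = 1 := by rw [hq]; norm_num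
  · rw [← Real.log_mul (rr1_sq_pos 0).ne' (rr1_sq_pos 1).ne', ← Real.log_inv]
    congr 1
    refine eq_inv_of_mul_eq_one_left ?_
    calc (1 + rr 0) ^ 2 * (1 + rr 1) ^ 2 * (1 + rr 2) ^ 2
        = ((1 + rr 0) * (1 + rr 1) * (1 + rr 2)) ^ 2 := by ring
      _ = 1 := by
        have : (1 + rr 0) * (1 + rr 1) * (1 + rr 2) = -1 := by
          linear_combination hs + hp + hq
        rw [this]; norm_num

/-- `M(ℝ)°` is contained in the closure of `{a_t} Γ` -/
lemma be_mem_closure (u v : ℝ) : be u v ∈ closure {g : G | ∃ t : ℝ, ∃ γ ∈ Gam, g = al 0 t * γ} := by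
  have hf : Continuous fun y : ℝ => be u (-u - y) :=
    be_cont2 continuous_const (by fun_prop)
  have h1 := image_closure_subset_closure_image (s := {y : ℝ | ∃ k l : ℤ,
    y = k * Real.log (rr 2 ^ 2) + l * Real.log ((1 + rr 2) ^ 2)}) hf
  have h2 : be u v ∈ (fun y : ℝ => be u (-u - y)) '' closure {y : ℝ | ∃ k l : ℤ,
      y = k * Real.log (rr 2 ^ 2) + l * Real.log ((1 + rr 2) ^ 2)} := by
    have h3 := Set.mem_image_of_mem (fun y : ℝ => be u (-u - y)) (dense_vals (-u - v))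
    rw [sub_sub_cancel] at h3
    exact h3
  refine closure_mono ?_ (h1 h2)
  rintro _ ⟨y, ⟨k, l, rfl⟩, rfl⟩
  refine ⟨u - (k * Real.log (rr 0 ^ 2) + l * Real.log ((1 + rr 0) ^ 2)), _, be_int_mem k l, ?_⟩
  rw [al_eq_be, be_mul]
  obtain ⟨s1, s2⟩ := log_sum
  have e1 : u - (k * Real.log (rr 0 ^ 2) + l * Real.log ((1 + rr 0) ^ 2)) +
    (k * Real.log (rr 0 ^ 2) + l * Real.log ((1 + rr 0) ^ 2)) = u := by ring
  have e2 : -(u - (k * Real.log (rr 0 ^ 2) + l * Real.log ((1 + rr 0) ^ 2))) +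
    (k * Real.log (rr 1 ^ 2) + l * Real.log ((1 + rr 1) ^ 2)) =
      -u - (k * Real.log (rr 2 ^ 2) + l * Real.log ((1 + rr 2) ^ 2)) := by
    linear_combination (k:ℝ) * s1 + (l:ℝ) * s2
  rw [e1, e2]

/-- `b_s M(ℝ)°` is contained in the closure of `A Γ` -/
lemma al_be_mem_closure (s u v : ℝ) :
    al s 0 * be u v ∈ closure {g : G | ∃ a ∈ A, ∃ γ ∈ Gam, g = a * γ} := by
  have h := be_mem_closure u v
  have hc : Continuous fun g : G => al s 0 * g := continuous_const.mul continuous_id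
  have h1 := image_closure_subset_closure_image (s := {g : G | ∃ t : ℝ, ∃ γ ∈ Gam, g = al 0 t * γ}) hc
  refine closure_mono ?_ (h1 ⟨_, h, rfl⟩)
  rintro _ ⟨_, ⟨t, γ, hγ, rfl⟩, rfl⟩
  refine ⟨al s t, ⟨s, t, rfl⟩, γ, hγ, ?_⟩
  show al s 0 * (al 0 t * γ) = _
  rw [← mul_assoc, al_mul, add_zero, zero_add]

end Pool.Agent.TH225.OC
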