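import Mathlib
import Pool.Agent.TH225.OC.Dens

set_option autoImplicit false

namespace Pool.Agent.TH225.OC

open Matrix Topology Filter

lemma lin_indep (a b c : ℤ) (h : (a : ℝ) + b * rr 0 + c * rr 0 ^ 2 = 0) : a = 0 ∧ b = 0 ∧ c = 0 := by
  have h1 : Polynomial.aeval (rr 0) (Polynomial.C (a:ℚ) + Polynomial.C (b:ℚ) * Polynomial.X
      + Polynomial.C (c:ℚ) * Polynomial.X ^ 2 : Polynomial ℚ) = 0 := by
    simp only [map_add, map_mul, map_pow, Polynomial.aeval_X, Polynomial.aeval_C]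
    simpa using h
  have g1 := conj_root hrr 0 1 _ h1
  have g2 := conj_root hrr 0 2 _ h1
  simp only [map_add, map_mul, map_pow, Polynomial.aeval_X, Polynomial.aeval_C, eq_ratCast,
    Rat.cast_intCast] at g1 g2
  have n01 := sub_ne_zero.2 (root_ne hrr (show (0:Fin 3) ≠ 1 by decide))
  have n02 := sub_ne_zero.2 (root_ne hrr (show (0:Fin 3) ≠ 2 by decide))
  have n12 := sub_ne_zero.2 (root_ne hrr (show (1:Fin 3) ≠ 2 by decide))
  have e1 : (b : ℝ) + c * (rr 0 + rr 1) = 0 := by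
    apply mul_left_cancel₀ n01
    linear_combination h - g1
  have e2 : (b : ℝ) + c * (rr 0 + rr 2) = 0 := by
    apply mul_left_cancel₀ n02
    linear_combination h - g2
  have e3 : (c : ℝ) = 0 := by
    apply mul_left_cancel₀ n12
    linear_combination e1 - e2
  rw [e3] at e1 h
  have e4 : (b : ℝ) = 0 := by linarith
  rw [e4] at h
  have e5 : (a : ℝ) = 0 := by linarith
  exact ⟨by exact_mod_cast e5, by exact_mod_cast e4, by exact_mod_cast e3⟩

lemma exists_tau : ∃ τ : ℝ, ∀ n : Fin 4 → ℤ, (n 0 : ℝ) + n 1 * rr 0 + n 2 * rr 0 ^ 2 + τ * n 3 = 0 → n = 0 := by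
  have hc : (Set.range fun n : Fin 4 → ℤ => -((n 0 : ℝ) + n 1 * rr 0 + n 2 * rr 0 ^ 2) / n 3).Countable :=
    Set.countable_range _
  obtain ⟨τ, hτ⟩ := (hc.dense_compl ℝ).nonempty
  refine ⟨τ, fun n hn => ?_⟩
  have h3 : n 3 = 0 := by
    by_contra h3
    apply hτ
    refine ⟨n, ?_⟩
    have : (n 3 : ℝ) ≠ 0 := by exact_mod_cast h3
    field_simp
    linarith
  rw [h3] at hn
  obtain ⟨a, b, c⟩ := lin_indep (n 0) (n 1) (n 2) (by simpa using hn)
  ext i
  fin_cases i
  · exact a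
  · exact b
  · exact c
  · exact h3

/-- the product set `A Γ` -/
def AG : Set G := {g : G | ∃ a ∈ A, ∃ γ ∈ Gam, g = a * γ}

lemma D_row3_bound {s t : ℝ} (hs : 0 ≤ s) (j : Fin 4) : |D (-s) t 3 j| ≤ Real.exp (-2 * s) := by
  have h1 : Real.exp (4 * -s) ≤ Real.exp (-2 * s) := Real.exp_le_exp.2 (by linarith)
  have h2 : Real.exp (2 * -s) = Real.exp (-2 * s) := by ring_nf
  have h3 := Real.exp_pos (4 * -s)
  have h4 := Real.exp_pos (-2 * s)
  fin_cases j
  · simp [D]; positivity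
  · simp [D]; positivity
  · show |(Real.exp (4 * -s) - Real.exp (2 * -s)) / 2| ≤ _
    rw [abs_le, h2]
    constructor <;> linarith
  · show |(Real.exp (4 * -s) + Real.exp (2 * -s)) / 2| ≤ _
    rw [abs_le, h2]
    constructor <;> linarith

lemma D_col3_bound {s t S : ℝ} (hs : s ≤ S) (hS : 0 ≤ S) (j : Fin 4) : |D s t j 3| ≤ Real.exp (4 * S) := by
  have h1 : Real.exp (4 * s) ≤ Real.exp (4 * S) := Real.exp_le_exp.2 (by linarith)
  have h2 : Real.exp (2 * s) ≤ Real.exp (4 * S) := Real.exp_le_exp.2 (by linarith)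
  have h3 := Real.exp_pos (4 * s)
  have h4 := Real.exp_pos (2 * s)
  fin_cases j
  · simp [D]; positivity
  · simp [D]; positivity
  · show |(Real.exp (4 * s) - Real.exp (2 * s)) / 2| ≤ _
    rw [abs_le]
    constructor <;> linarith
  · show |(Real.exp (4 * s) + Real.exp (2 * s)) / 2| ≤ _
    rw [abs_le]
    constructor <;> linarith

lemma H_col3 (r : Fin 3 → ℝ) (i : Fin 4) : H r i 3 = if i = 3 then 1 else 0 := by
  fin_cases i <;> simp [H]

lemma K_row3 (r : Fin 3 → ℝ) (i : Fin 4) : K r 3 i = if i = 3 then 1 else 0 := by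
  fin_cases i <;> simp [K]

/-- a common bound for the entries of `H` and `K` -/
noncomputable def cb : ℝ := ∑ i, ∑ j, (|H rr i j| + |K rr i j|)

lemma H_le (i j : Fin 4) : |H rr i j| ≤ cb := by
  unfold cb
  calc |H rr i j| ≤ |H rr i j| + |K rr i j| := by linarith [abs_nonneg (K rr i j)]
    _ ≤ ∑ j, (|H rr i j| + |K rr i j|) :=
        Finset.single_le_sum (f := fun j => |H rr i j| + |K rr i j|) (fun _ _ => by positivity) (Finset.mem_univ j)
    _ ≤ _ := Finset.single_le_sum (f := fun i => ∑ j, (|H rr i j| + |K rr i j|)) (fun _ _ => by positivity) (Finset.mem_univ i)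

lemma K_le (i j : Fin 4) : |K rr i j| ≤ cb := by
  unfold cb
  calc |K rr i j| ≤ |H rr i j| + |K rr i j| := by linarith [abs_nonneg (H rr i j)]
    _ ≤ ∑ j, (|H rr i j| + |K rr i j|) :=
        Finset.single_le_sum (f := fun j => |H rr i j| + |K rr i j|) (fun _ _ => by positivity) (Finset.mem_univ j)
    _ ≤ _ := Finset.single_le_sum (f := fun i => ∑ j, (|H rr i j| + |K rr i j|)) (fun _ _ => by positivity) (Finset.mem_univ i)

lemma cb_pos : 0 < cb := by
  have h := H_le 3 3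
  have : H rr 3 3 = 1 := by simp [H]
  rw [this] at h
  simp at h
  linarith

lemma mulVec_bound {A B : ℝ} (M : Matrix (Fin 4) (Fin 4) ℝ) (v : Fin 4 → ℝ)
    (hM : ∀ i j, |M i j| ≤ A) (hv : ∀ i, |v i| ≤ B) (i : Fin 4) : |(M *ᵥ v) i| ≤ 4 * A * B := by
  have hA : 0 ≤ A := le_trans (abs_nonneg _) (hM 0 0)
  calc |(M *ᵥ v) i| = |∑ j, M i j * v j| := rfl
    _ ≤ ∑ j, |M i j * v j| := Finset.abs_sum_le_sum_abs _ _
    _ ≤ ∑ _j : Fin 4, A * B := Finset.sum_le_sum (fun j _ => by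
        rw [abs_mul]; exact mul_le_mul (hM i j) (hv j) (abs_nonneg _) hA)
    _ = _ := by simp; ring

lemma vecMul_bound {A B : ℝ} (M : Matrix (Fin 4) (Fin 4) ℝ) (v : Fin 4 → ℝ)
    (hM : ∀ i j, |M i j| ≤ A) (hv : ∀ i, |v i| ≤ B) (i : Fin 4) : |(v ᵥ* M) i| ≤ 4 * A * B := by
  have hA : 0 ≤ A := le_trans (abs_nonneg _) (hM 0 0)
  calc |(v ᵥ* M) i| = |∑ j, v j * M j i| := rfl
    _ ≤ ∑ j, |v j * M j i| := Finset.abs_sum_le_sum_abs _ _
    _ ≤ ∑ _j : Fin 4, A * B := Finset.sum_le_sum (fun j _ => by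
        rw [abs_mul, mul_comm A B]; exact mul_le_mul (hv j) (hM j i) (abs_nonneg _) (le_trans (abs_nonneg _) (hv 0)))
    _ = _ := by simp; ring

/-- the key finiteness: an element of `A Γ` with bounded entries comes with a short integral
vector whose image has first `H`-coordinate zero. -/
lemma short_vector (R : ℝ) : ∃ N : ℝ, ∀ g : G, g ∈ AG → (∀ i j, |g.1 i j| ≤ R) →
    (∀ i j, |(g⁻¹).1 i j| ≤ R) → ∃ n : Fin 4 → ℤ, n ≠ 0 ∧ (∀ i, |(n i : ℝ)| ≤ N) ∧
      (H rr *ᵥ (g.1 *ᵥ (fun i => (n i : ℝ)))) 0 = 0 := by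
  set C := 4 * R * (4 * cb * 1) with hC
  set S := max 0 (Real.log C / 2) with hS
  refine ⟨4 * R * (4 * cb * Real.exp (4 * S)), ?_⟩
  rintro g ⟨a, ⟨s, t, rfl⟩, γ, ⟨γ0, rfl⟩, rfl⟩ hg hg'
  set g : G := al s t * Matrix.SpecialLinearGroup.map (Int.castRingHom ℝ) γ0 with hgdef
  -- upper bound for s
  have hsS : s ≤ S := by
    by_cases hs : s ≤ 0
    · exact le_trans hs (le_max_left _ _)
    push Not at hs
    -- row 3 of γ0
    let m : Fin 4 → ℝ := fun j => ((γ0.1 3 j : ℤ) : ℝ)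
    have hm : m = ((D (-s) (-t)) 3) ᵥ* (H rr) ᵥ* g.1 := by
      have h1 : (Matrix.SpecialLinearGroup.map (Int.castRingHom ℝ) γ0 : G) = al (-s) (-t) * g := by
        rw [hgdef, ← mul_assoc, ← al_inv, inv_mul_cancel, one_mul]
      have h2 : (Matrix.SpecialLinearGroup.map (Int.castRingHom ℝ) γ0 : G).1 = K rr * D (-s) (-t) * H rr * g.1 := by
        rw [h1]; rfl
      ext j
      have h3 := congrFun (congrFun h2 3) j
      have h4 : (Matrix.SpecialLinearGroup.map (Int.castRingHom ℝ) γ0 : G).1 3 j = m j := by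
        show (Matrix.SpecialLinearGroup.map (Int.castRingHom ℝ) γ0 : Matrix (Fin 4) (Fin 4) ℝ) 3 j = m j
        rw [Matrix.SpecialLinearGroup.map_apply_coe]
        rfl
      rw [← h4, h3]
      have h5 : K rr 3 ᵥ* D (-s) (-t) = D (-s) (-t) 3 := by
        ext k
        simp [Matrix.vecMul, dotProduct, K_row3]
      show (K rr * D (-s) (-t) * H rr * g.1) 3 j = _
      rw [← h5]
      rw [Matrix.mul_apply_eq_vecMul, Matrix.mul_apply_eq_vecMul, Matrix.mul_apply_eq_vecMul]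
    have hb : ∀ j, |m j| ≤ 4 * R * (4 * cb * Real.exp (-2 * s)) := by
      intro j
      rw [hm]
      exact vecMul_bound _ _ hg (vecMul_bound _ _ H_le (D_row3_bound hs.le)) j
    -- some entry is a nonzero integer
    obtain ⟨j, hj⟩ : ∃ j, γ0.1 3 j ≠ 0 := by
      by_contra hcon
      push Not at hcon
      have := γ0.2
      rw [Matrix.det_eq_zero_of_row_eq_zero 3 hcon] at this
      exact zero_ne_one this
    have h1 : (1:ℝ) ≤ |m j| := by
      show (1:ℝ) ≤ |((γ0.1 3 j : ℤ) : ℝ)|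
      rw [← Int.cast_abs]
      exact_mod_cast Int.one_le_abs hj
    have h2 : 1 ≤ C * Real.exp (-2 * s) := by
      calc (1:ℝ) ≤ _ := h1
        _ ≤ _ := hb j
        _ = _ := by rw [hC]; ring
    have hCpos : 0 < C := by
      have := Real.exp_pos (-2 * s)
      by_contra hcon
      push Not at hcon
      nlinarith [mul_nonpos_of_nonpos_of_nonneg hcon this.le]
    have h3 : Real.exp (2 * s) ≤ C := by
      have h4 : Real.exp (2 * s) * Real.exp (-2 * s) = 1 := by rw [← Real.exp_add]; simp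
      have h5 := Real.exp_pos (2 * s)
      calc Real.exp (2 * s) = Real.exp (2 * s) * 1 := by ring
        _ ≤ Real.exp (2 * s) * (C * Real.exp (-2 * s)) := by gcongr
        _ = C * (Real.exp (2 * s) * Real.exp (-2 * s)) := by ring
        _ = C := by rw [h4, mul_one]
    have h6 : 2 * s ≤ Real.log C := (Real.le_log_iff_exp_le hCpos).2 h3
    exact le_trans (by linarith) (le_max_right _ _)
  -- the vector
  refine ⟨fun i => (γ0⁻¹).1 i 3, ?_, ?_, ?_⟩
  · intro h
    have h1 := (γ0⁻¹).2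
    rw [Matrix.det_eq_zero_of_column_eq_zero 3 (fun i => congrFun h i)] at h1
    exact zero_ne_one h1
  all_goals
    have hn : (fun i => (((γ0⁻¹).1 i 3 : ℤ) : ℝ)) = (g⁻¹).1 *ᵥ (K rr *ᵥ (fun k => D s t k 3)) := by
      have h1 : (Matrix.SpecialLinearGroup.map (Int.castRingHom ℝ) γ0⁻¹ : G) = g⁻¹ * al s t := by
        rw [hgdef, _root_.mul_inv_rev, map_inv, mul_assoc, inv_mul_cancel, mul_one]
      have h2 : (Matrix.SpecialLinearGroup.map (Int.castRingHom ℝ) γ0⁻¹ : G).1 =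
          (g⁻¹).1 * (K rr * D s t * H rr) := by
        rw [h1]; rfl
      ext i
      have h3 := congrFun (congrFun h2 i) 3
      have h4 : (Matrix.SpecialLinearGroup.map (Int.castRingHom ℝ) γ0⁻¹ : G).1 i 3 =
          (((γ0⁻¹).1 i 3 : ℤ) : ℝ) := by
        show (Matrix.SpecialLinearGroup.map (Int.castRingHom ℝ) γ0⁻¹ : Matrix (Fin 4) (Fin 4) ℝ) i 3 = _
        rw [Matrix.SpecialLinearGroup.map_apply_coe]
        rfl
      rw [← h4, h3]
      have h5 : D s t *ᵥ (fun k => H rr k 3) = (fun k => D s t k 3) := by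
        ext k
        simp [Matrix.mulVec, dotProduct, H_col3]
      rw [← h5, Matrix.mulVec_mulVec, Matrix.mulVec_mulVec, ← Matrix.mul_assoc, ← Matrix.mul_assoc]
      rfl
  · intro i
    have h9 : (((γ0⁻¹).1 i 3 : ℤ) : ℝ) = _ := congrFun hn i
    rw [h9]
    exact mulVec_bound _ _ hg' (mulVec_bound _ _ K_le (D_col3_bound hsS (le_max_left _ _))) i
  · have h1 : g.1 * (g⁻¹).1 = 1 := by
      show (g * g⁻¹).1 = 1
      rw [mul_inv_cancel]; rfl
    have h2 : g.1 *ᵥ ((g⁻¹).1 *ᵥ (K rr *ᵥ (fun k => D s t k 3))) = K rr *ᵥ (fun k => D s t k 3) := by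
      rw [Matrix.mulVec_mulVec, h1, Matrix.one_mulVec]
    rw [hn, h2, Matrix.mulVec_mulVec, HK hrr, Matrix.one_mulVec]
    simp [D]

/-- the point that is not in the closure -/
noncomputable def gs (τ : ℝ) : G := Matrix.SpecialLinearGroup.transvection (show (0 : Fin 4) ≠ 3 by decide) τ

lemma not_in_closure : ∃ g : G, g ∉ closure AG := by
  obtain ⟨τ, hτ⟩ := exists_tau
  refine ⟨gs τ, fun hcl => ?_⟩
  set R : ℝ := (∑ i, ∑ j, (|(gs τ).1 i j| + |((gs τ)⁻¹).1 i j|)) + 1 with hR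
  obtain ⟨N, hN⟩ := short_vector R
  let U : Set G := {g | (∀ i j, |g.1 i j| < R) ∧ ∀ i j, |(g⁻¹).1 i j| < R}
  have hent : ∀ i j : Fin 4, Continuous fun g : G => g.1 i j := fun i j =>
    (continuous_subtype_val).matrix_elem i j
  have hU : IsOpen U := by
    have h1 : U = (⋂ i, ⋂ j, {g : G | |g.1 i j| < R}) ∩ ⋂ i, ⋂ j, {g : G | |(g⁻¹).1 i j| < R} := by
      ext g; simp [U]
    rw [h1]
    refine IsOpen.inter ?_ ?_
    · exact isOpen_iInter_of_finite fun i => isOpen_iInter_of_finite fun j =>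
        isOpen_lt (hent i j).abs continuous_const
    · exact isOpen_iInter_of_finite fun i => isOpen_iInter_of_finite fun j =>
        isOpen_lt ((hent i j).comp continuous_inv).abs continuous_const
  have hmem : gs τ ∈ U := by
    have key : ∀ i j, |(gs τ).1 i j| + |((gs τ)⁻¹).1 i j| < R := by
      intro i j
      rw [hR]
      refine lt_of_le_of_lt ?_ (lt_add_one _)
      exact le_trans (Finset.single_le_sum (f := fun j => |(gs τ).1 i j| + |((gs τ)⁻¹).1 i j|)
        (fun _ _ => by positivity) (Finset.mem_univ j)) (Finset.single_le_sum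
        (f := fun i => ∑ j, (|(gs τ).1 i j| + |((gs τ)⁻¹).1 i j|)) (fun _ _ => by positivity)
        (Finset.mem_univ i))
    refine ⟨fun i j => lt_of_le_of_lt ?_ (key i j), fun i j => lt_of_le_of_lt ?_ (key i j)⟩
    · linarith [abs_nonneg (((gs τ)⁻¹).1 i j)]
    · linarith [abs_nonneg ((gs τ).1 i j)]
  let F : Set (Fin 4 → ℤ) := {n | n ≠ 0 ∧ ∀ i, |(n i : ℝ)| ≤ N}
  have hF : F.Finite := by
    have h1 : F ⊆ Set.Icc (fun _ => -⌈N⌉) (fun _ => ⌈N⌉) := by
      rintro n ⟨_, hn⟩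
      constructor
      · intro i
        have := (abs_le.1 (hn i)).1
        have h2 : -(⌈N⌉ : ℝ) ≤ n i := by linarith [Int.le_ceil N]
        exact_mod_cast h2
      · intro i
        have := (abs_le.1 (hn i)).2
        have h2 : (n i : ℝ) ≤ ⌈N⌉ := by linarith [Int.le_ceil N]
        exact_mod_cast h2
    exact (Set.finite_Icc _ _).subset h1
  let Z : (Fin 4 → ℤ) → Set G := fun n => {g : G | (H rr *ᵥ (g.1 *ᵥ (fun i => (n i : ℝ)))) 0 = 0}
  have hZ : ∀ n, IsClosed (Z n) := by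
    intro n
    refine isClosed_eq ?_ continuous_const
    have h1 : Continuous fun g : G => H rr *ᵥ (g.1 *ᵥ (fun i => (n i : ℝ))) :=
      continuous_const.matrix_mulVec (continuous_subtype_val.matrix_mulVec continuous_const)
    exact (continuous_apply 0).comp h1
  have hsub : AG ∩ U ⊆ ⋃ n ∈ F, Z n := by
    rintro g ⟨hg, hgU⟩
    obtain ⟨n, h1, h2, h3⟩ := hN g hg (fun i j => (hgU.1 i j).le) (fun i j => (hgU.2 i j).le)
    exact Set.mem_biUnion (show n ∈ F from ⟨h1, h2⟩) h3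
  have h4 : gs τ ∈ closure (AG ∩ U) := by
    rw [mem_closure_iff_nhds] at hcl ⊢
    intro V hV
    obtain ⟨y, hy1, hy2⟩ := hcl (V ∩ U) (Filter.inter_mem hV (hU.mem_nhds hmem))
    exact ⟨y, hy1.1, hy2, hy1.2⟩
  have h5 : gs τ ∈ ⋃ n ∈ F, Z n :=
    (closure_minimal hsub (hF.isClosed_biUnion fun n _ => hZ n)) h4
  simp only [Set.mem_iUnion] at h5
  obtain ⟨n, hn, h6⟩ := h5
  apply hn.1
  apply hτ
  have h7 : (H rr *ᵥ ((gs τ).1 *ᵥ (fun i => (n i : ℝ)))) 0 = 0 := h6
  rw [← h7]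
  simp [H, gs, Matrix.mulVec, dotProduct, Fin.sum_univ_four, Matrix.SpecialLinearGroup.transvection, Matrix.transvection]
  ring

end Pool.Agent.TH225.OC
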