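import Mathlib
import Pool.Agent.TH225.OC.NonDense
import Pool.Agent.TH225.OC.Gal

set_option autoImplicit false

namespace Pool.Agent.TH225.OC

open Matrix Topology Filter

lemma H_al_K (s t : ℝ) : H rr * (al s t).1 * K rr = D s t := H_cj_K hrr _ _

/-- the closed conditions that define `A` -/
def InC (E : Matrix (Fin 4) (Fin 4) ℝ) : Prop :=
  (E 0 1 = 0 ∧ E 0 2 = 0 ∧ E 0 3 = 0 ∧ E 1 0 = 0 ∧ E 1 2 = 0 ∧ E 1 3 = 0) ∧
  (E 2 0 = 0 ∧ E 2 1 = 0 ∧ E 3 0 = 0 ∧ E 3 1 = 0) ∧
  (E 3 3 = E 2 2 ∧ E 3 2 = E 2 3 ∧ (E 2 2 - E 2 3) ^ 2 = E 2 2 + E 2 3) ∧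
  (0 ≤ E 2 2 - E 2 3 ∧ 0 ≤ E 0 0 ∧ 0 ≤ E 1 1)

lemma InC_closed : IsClosed {E : Matrix (Fin 4) (Fin 4) ℝ | InC E} := by
  have hc : ∀ i j : Fin 4, Continuous fun E : Matrix (Fin 4) (Fin 4) ℝ => E i j := fun i j =>
    continuous_id.matrix_elem i j
  unfold InC
  refine IsClosed.inter ?_ (IsClosed.inter ?_ (IsClosed.inter ?_ ?_))
  · refine IsClosed.inter ?_ (IsClosed.inter ?_ (IsClosed.inter ?_ (IsClosed.inter ?_ (IsClosed.inter ?_ ?_)))) <;>
    exact isClosed_eq (hc _ _) continuous_const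
  · refine IsClosed.inter ?_ (IsClosed.inter ?_ (IsClosed.inter ?_ ?_)) <;>
    exact isClosed_eq (hc _ _) continuous_const
  · refine IsClosed.inter (isClosed_eq (hc _ _) (hc _ _)) (IsClosed.inter (isClosed_eq (hc _ _) (hc _ _)) ?_)
    exact isClosed_eq (((hc 2 2).sub (hc 2 3)).pow 2) ((hc 2 2).add (hc 2 3))
  · refine IsClosed.inter ?_ (IsClosed.inter ?_ ?_)
    · exact isClosed_le continuous_const ((hc 2 2).sub (hc 2 3))
    · exact isClosed_le continuous_const (hc _ _)
    · exact isClosed_le continuous_const (hc _ _)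

lemma D_InC (s t : ℝ) : InC (D s t) := by
  refine ⟨⟨rfl, rfl, rfl, rfl, rfl, rfl⟩, ⟨rfl, rfl, rfl, rfl⟩, ⟨rfl, rfl, ?_⟩, ?_, ?_, ?_⟩
  · show ((Real.exp (4 * s) + Real.exp (2 * s)) / 2 - (Real.exp (4 * s) - Real.exp (2 * s)) / 2) ^ 2 =
      (Real.exp (4 * s) + Real.exp (2 * s)) / 2 + (Real.exp (4 * s) - Real.exp (2 * s)) / 2
    have : Real.exp (4 * s) = Real.exp (2 * s) ^ 2 := by rw [← Real.exp_nat_mul]; ring_nf
    rw [this]; ring
  · show 0 ≤ (Real.exp (4 * s) + Real.exp (2 * s)) / 2 - (Real.exp (4 * s) - Real.exp (2 * s)) / 2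
    have := Real.exp_pos (2 * s)
    linarith
  · exact (Real.exp_pos _).le
  · exact (Real.exp_pos _).le

lemma eq_D_of_InC {E : Matrix (Fin 4) (Fin 4) ℝ} (h : InC E) (hdet : E.det = 1) : ∃ s t, E = D s t := by
  obtain ⟨⟨h01, h02, h03, h10, h12, h13⟩, ⟨h20, h21, h30, h31⟩, ⟨h33, h32, hq⟩, ha, h00, h11⟩ := h
  set a := E 2 2 - E 2 3 with hadef
  have hd : E 0 0 * E 1 1 * a ^ 3 = 1 := by
    rw [Matrix.det_succ_row_zero] at hdet
    simp only [Fin.sum_univ_four, Matrix.det_fin_three, Matrix.submatrix_apply] at hdet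
    simp [Fin.succAbove, h01, h02, h03, h10, h12, h13, h20, h21, h30, h31] at hdet
    have e0 : E 0 0 * (E 1 1 * (E 2 2 * E 3 3 - E 2 3 * E 3 2)) = 1 := by
      linear_combination hdet
    rw [h33, h32] at e0
    have e1 : E 2 2 * E 2 2 - E 2 3 * E 2 3 = a ^ 3 := by
      have : E 2 2 * E 2 2 - E 2 3 * E 2 3 = a * (E 2 2 + E 2 3) := by rw [hadef]; ring
      rw [this, ← hq]; ring
    rw [e1] at e0
    linarith
  have ha' : 0 < a := by
    refine lt_of_le_of_ne ha (fun h => ?_)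
    rw [← h] at hd; simp at hd
  have h00' : 0 < E 0 0 := by
    refine lt_of_le_of_ne h00 (fun h => ?_)
    rw [← h] at hd; simp at hd
  have h11' : 0 < E 1 1 := by
    refine lt_of_le_of_ne h11 (fun h => ?_)
    rw [← h] at hd; simp at hd
  refine ⟨Real.log a / 2, Real.log (E 0 0) + 3 * (Real.log a / 2), ?_⟩
  have e2 : Real.exp (2 * (Real.log a / 2)) = a := by
    rw [show 2 * (Real.log a / 2) = Real.log a by ring, Real.exp_log ha']
  have e4 : Real.exp (4 * (Real.log a / 2)) = a ^ 2 := by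
    rw [show 4 * (Real.log a / 2) = (2:ℕ) * Real.log a by push_cast; ring, Real.exp_nat_mul, Real.exp_log ha']
  have e0 : Real.exp (Real.log (E 0 0) + 3 * (Real.log a / 2) - 3 * (Real.log a / 2)) = E 0 0 := by
    rw [add_sub_cancel_right, Real.exp_log h00']
  have e1 : Real.exp (-(Real.log (E 0 0) + 3 * (Real.log a / 2)) - 3 * (Real.log a / 2)) = E 1 1 := by
    rw [show -(Real.log (E 0 0) + 3 * (Real.log a / 2)) - 3 * (Real.log a / 2) =
      -(Real.log (E 0 0) + (3:ℕ) * Real.log a) by push_cast; ring, Real.exp_neg, Real.exp_add,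
      Real.exp_nat_mul, Real.exp_log ha', Real.exp_log h00']
    field_simp
    linarith
  unfold D
  rw [e2, e4, e0, e1]
  ext i j
  fin_cases i <;> fin_cases j <;> simp [h01, h02, h03, h10, h12, h13, h20, h21, h30, h31]
  · linarith
  · linarith
  · rw [h32]; linarith
  · rw [h33]; linarith

lemma mem_A_iff (g : G) : g ∈ A ↔ InC (H rr * g.1 * K rr) := by
  constructor
  · rintro ⟨s, t, rfl⟩
    rw [H_al_K]
    exact D_InC s t
  · intro h
    have hdet : (H rr * g.1 * K rr).det = 1 := by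
      have h1 : g.1.det = 1 := g.2
      rw [Matrix.det_mul, Matrix.det_mul, h1, mul_one, ← Matrix.det_mul, HK hrr, Matrix.det_one]
    obtain ⟨s, t, hst⟩ := eq_D_of_InC h hdet
    refine ⟨s, t, ?_⟩
    apply Subtype.ext
    show g.1 = K rr * D s t * H rr
    rw [← hst]
    calc g.1 = (K rr * H rr) * g.1 * (K rr * H rr) := by rw [KH hrr, Matrix.one_mul, Matrix.mul_one]
      _ = _ := by simp only [Matrix.mul_assoc]

lemma A_closed : IsClosed (A : Set G) := by
  have h1 : (A : Set G) = (fun g : G => H rr * g.1 * K rr) ⁻¹' {E | InC E} := by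
    ext g
    exact mem_A_iff g
  rw [h1]
  exact InC_closed.preimage ((continuous_const.matrix_mul continuous_subtype_val).matrix_mul continuous_const)

/-- sum of the absolute values of the entries -/
noncomputable def nm (g : G) : ℝ := ∑ i, ∑ j, |g.1 i j|

lemma nm_continuous : Continuous nm :=
  continuous_finsetSum _ fun i _ => continuous_finsetSum _ fun j _ =>
    (continuous_subtype_val.matrix_elem i j).abs

lemma D_entry_le {s t R : ℝ} (h : nm (al s t) ≤ R) (i j : Fin 4) : |D s t i j| ≤ cb * cb * R := by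
  rw [← H_al_K s t]
  have h1 : (H rr * (al s t).1 * K rr) i j = ∑ l, ∑ k, H rr i k * (al s t).1 k l * K rr l j := by
    rw [Matrix.mul_apply]
    refine Finset.sum_congr rfl fun l _ => ?_
    rw [Matrix.mul_apply, Finset.sum_mul]
  rw [h1]
  calc |∑ l, ∑ k, H rr i k * (al s t).1 k l * K rr l j|
      ≤ ∑ l, |∑ k, H rr i k * (al s t).1 k l * K rr l j| := Finset.abs_sum_le_sum_abs _ _
    _ ≤ ∑ l, ∑ k, |H rr i k * (al s t).1 k l * K rr l j| :=
        Finset.sum_le_sum fun l _ => Finset.abs_sum_le_sum_abs _ _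
    _ ≤ ∑ l, ∑ k, cb * cb * |(al s t).1 k l| := by
        refine Finset.sum_le_sum fun l _ => Finset.sum_le_sum fun k _ => ?_
        rw [abs_mul, abs_mul]
        have h2 := H_le i k
        have h3 := K_le l j
        have h4 := abs_nonneg ((al s t).1 k l)
        calc |H rr i k| * |(al s t).1 k l| * |K rr l j| ≤ cb * |(al s t).1 k l| * cb := by
              gcongr
              exact mul_nonneg cb_pos.le h4
          _ = _ := by ring
    _ = cb * cb * nm (al s t) := by
        unfold nm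
        rw [Finset.sum_comm]
        simp only [Finset.mul_sum]
    _ ≤ _ := mul_le_mul_of_nonneg_left h (mul_nonneg cb_pos.le cb_pos.le)

lemma al_bounded (R : ℝ) : ∃ B : ℝ, ∀ s t : ℝ, nm (al s t) ≤ R → |s| ≤ B ∧ |t| ≤ B := by
  set R' := cb * cb * R with hR'
  refine ⟨4 * Real.log (2 * R' + 1), fun s t h => ?_⟩
  have h0 := D_entry_le h 0 0
  have h1 := D_entry_le h 1 1
  have h2 := D_entry_le h 2 2
  have h3 := D_entry_le h 2 3
  rw [← hR'] at h0 h1 h2 h3
  have hR0 : 0 ≤ R' := le_trans (abs_nonneg _) h0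
  have g0 : Real.exp (t - 3 * s) ≤ R' := le_trans (le_abs_self _) h0
  have g1 : Real.exp (-t - 3 * s) ≤ R' := le_trans (le_abs_self _) h1
  have g2 : (Real.exp (4 * s) + Real.exp (2 * s)) / 2 ≤ R' := le_trans (le_abs_self _) h2
  have g3 : (Real.exp (4 * s) - Real.exp (2 * s)) / 2 ≤ R' := le_trans (le_abs_self _) h3
  set L := Real.log (2 * R' + 1) with hL
  have hLpos : 0 ≤ L := Real.log_nonneg (by linarith)
  have le_L : ∀ x : ℝ, Real.exp x ≤ 2 * R' + 1 → x ≤ L := fun x hx =>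
    (Real.le_log_iff_exp_le (by linarith)).2 hx
  have a0 : t - 3 * s ≤ L := le_L _ (by linarith)
  have a1 : -t - 3 * s ≤ L := le_L _ (by linarith)
  have a2 : 4 * s ≤ L := le_L _ (by linarith)
  constructor
  · rw [abs_le]; constructor <;> linarith
  · rw [abs_le]; constructor <;> linarith

/-- the homomorphism `ℤ² → G` -/
noncomputable def alHom : Multiplicative (ℤ × ℤ) →* G where
  toFun x := al ((Multiplicative.toAdd x).1 : ℝ) ((Multiplicative.toAdd x).2 : ℝ)
  map_one' := by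
    show al ((0:ℤ):ℝ) ((0:ℤ):ℝ) = 1
    rw [Int.cast_zero]; exact al_zero
  map_mul' x y := by
    show al (((Multiplicative.toAdd x).1 + (Multiplicative.toAdd y).1 : ℤ) : ℝ)
      (((Multiplicative.toAdd x).2 + (Multiplicative.toAdd y).2 : ℤ) : ℝ) = _
    rw [Int.cast_add, Int.cast_add, ← al_mul]

lemma finite_of_nm (R : ℝ) : {x : Multiplicative (ℤ × ℤ) | nm (alHom x) ≤ R}.Finite := by
  obtain ⟨B, hB⟩ := al_bounded R
  have h1 : {x : Multiplicative (ℤ × ℤ) | nm (alHom x) ≤ R} ⊆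
      Multiplicative.toAdd ⁻¹' (Set.Icc (-⌈B⌉, -⌈B⌉) (⌈B⌉, ⌈B⌉)) := by
    intro x hx
    obtain ⟨h1, h2⟩ := hB _ _ hx
    rw [abs_le] at h1 h2
    have hc := Int.le_ceil B
    refine ⟨⟨?_, ?_⟩, ⟨?_, ?_⟩⟩
    · show -⌈B⌉ ≤ (Multiplicative.toAdd x).1
      have : (-(⌈B⌉:ℝ)) ≤ ((Multiplicative.toAdd x).1 : ℝ) := by linarith
      exact_mod_cast this
    · show -⌈B⌉ ≤ (Multiplicative.toAdd x).2
      have : (-(⌈B⌉:ℝ)) ≤ ((Multiplicative.toAdd x).2 : ℝ) := by linarith
      exact_mod_cast this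
    · show (Multiplicative.toAdd x).1 ≤ ⌈B⌉
      have : ((Multiplicative.toAdd x).1 : ℝ) ≤ (⌈B⌉:ℝ) := by linarith
      exact_mod_cast this
    · show (Multiplicative.toAdd x).2 ≤ ⌈B⌉
      have : ((Multiplicative.toAdd x).2 : ℝ) ≤ (⌈B⌉:ℝ) := by linarith
      exact_mod_cast this
  exact ((Set.finite_Icc _ _).preimage (Multiplicative.toAdd.injective.injOn)).subset h1

instance real_normal (L : QSubgroup) [L.grp.Normal] : L.real.Normal := by
  unfold QSubgroup.real
  infer_instance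

lemma nm_mul_center {g z : G} (hz : z ∈ Subgroup.center G) : nm (g * z) = nm g := by
  rw [Matrix.SpecialLinearGroup.mem_center_iff] at hz
  obtain ⟨r, hr, hz⟩ := hz
  have hr1 : |r| = 1 := by
    have h1 : |r| ^ 4 = 1 := by
      rw [← abs_pow]
      have : r ^ 4 = 1 := by simpa using hr
      rw [this]; simp
    exact (pow_eq_one_iff_of_nonneg (abs_nonneg r) (by norm_num)).1 h1
  unfold nm
  refine Finset.sum_congr rfl fun i _ => Finset.sum_congr rfl fun j _ => ?_
  have h2 : (g * z).1 = g.1 * z.1 := rfl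
  have h3 : z.1 = Matrix.scalar (Fin 4) r := hz.symm
  rw [h2, h3]
  have : (g.1 * (Matrix.scalar (Fin 4)) r) i j = g.1 i j * r := by
    simp [Matrix.scalar_apply, Matrix.mul_diagonal]
  rw [this, abs_mul, hr1, mul_one]

theorem higherRank (L : QSubgroup) [L.grp.Normal] (hL : L.Proper) :
    IsHigherRank (A.map (QuotientGroup.mk' L.real)) := by
  have hne : L.real ≠ ⊤ := fun h => hL (grp_top_of_real_top L h)
  have hcen : L.real ≤ Subgroup.center G := by
    rcases Pool.Agent.Helper813.sl_normal L.real inferInstance with h | h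
    · exact absurd h hne
    · exact h
  -- the norm descends to the quotient
  let F : G ⧸ L.real → ℝ := Quotient.lift nm (by
    intro a b hab
    have h1 : a⁻¹ * b ∈ L.real := QuotientGroup.leftRel_apply.1 hab
    have h2 := nm_mul_center (g := a) (hcen h1)
    rw [mul_inv_cancel_left] at h2
    exact h2.symm)
  have hF : Continuous F := nm_continuous.quotient_lift _
  have hFmk : ∀ g : G, F (QuotientGroup.mk' L.real g) = nm g := fun g => rfl
  have hmem : ∀ x, QuotientGroup.mk' L.real (alHom x) ∈ A.map (QuotientGroup.mk' L.real) := fun x =>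
    Subgroup.mem_map_of_mem _ ⟨_, _, rfl⟩
  refine ⟨((QuotientGroup.mk' L.real).comp alHom).codRestrict _ hmem, fun K hK => ?_⟩
  have hK' : IsCompact ((fun y : A.map (QuotientGroup.mk' L.real) => F y.1) '' K) :=
    hK.image (hF.comp continuous_subtype_val)
  obtain ⟨R, hR⟩ := hK'.isBounded.subset_closedBall 0
  refine (finite_of_nm R).subset ?_
  intro x hx
  have h1 := hR ⟨_, hx, rfl⟩
  rw [mem_closedBall_zero_iff, Real.norm_eq_abs] at h1
  have h2 : F (QuotientGroup.mk' L.real (alHom x)) ≤ R := le_trans (le_abs_self _) h1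
  rw [hFmk] at h2
  exact h2

end Pool.Agent.TH225.OC
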