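import Mathlib
import Pool.Agent.TH225.OC.HR

set_option autoImplicit false

namespace Pool.Agent.TH225.OC

open Matrix Topology Filter

/-- positive reals -/
abbrev Pos : Type := {x : ℝ // 0 < x}

/-- `x ↦ xⁿ` -/
noncomputable def pw (n : ℤ) : Pos →* ℝ where
  toFun x := (x : ℝ) ^ n
  map_one' := by simp
  map_mul' x y := by
    show ((x * y : Pos) : ℝ) ^ n = _
    rw [Positive.val_mul, mul_zpow]

lemma exp_int (n : ℤ) (x : ℝ) : Real.exp (n * x) = (Real.exp x) ^ n := by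
  rw [← Real.rpow_intCast, ← Real.exp_mul, mul_comm]

/-- evaluation of exponential sums -/
noncomputable def Ev (n : ℤ) : MonoidAlgebra ℝ Pos →ₐ[ℝ] ℝ := MonoidAlgebra.lift ℝ ℝ Pos (pw n)

/-- exponential sums -/
def ES (f : ℤ → ℝ) : Prop := ∃ c : MonoidAlgebra ℝ Pos, ∀ n, f n = Ev n c

lemma ES_congr {f g : ℤ → ℝ} (h : ∀ n, f n = g n) (hg : ES g) : ES f := by
  have : f = g := funext h
  rwa [this]

lemma ES_exp (x : ℝ) : ES fun n => Real.exp (n * x) := by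
  refine ⟨MonoidAlgebra.single ⟨Real.exp x, Real.exp_pos x⟩ 1, fun n => ?_⟩
  unfold Ev
  rw [MonoidAlgebra.lift_single, one_smul]
  show Real.exp (n * x) = (Real.exp x) ^ n
  exact exp_int n x

lemma ES_const (a : ℝ) : ES fun _ => a :=
  ⟨algebraMap ℝ _ a, fun n => by rw [AlgHom.commutes]; rfl⟩

lemma ES_add {f g : ℤ → ℝ} (hf : ES f) (hg : ES g) : ES fun n => f n + g n := by
  obtain ⟨c, hc⟩ := hf
  obtain ⟨d, hd⟩ := hg
  refine ⟨c + d, fun n => ?_⟩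
  show f n + g n = Ev n (c + d)
  rw [map_add, hc, hd]

lemma ES_mul {f g : ℤ → ℝ} (hf : ES f) (hg : ES g) : ES fun n => f n * g n := by
  obtain ⟨c, hc⟩ := hf
  obtain ⟨d, hd⟩ := hg
  refine ⟨c * d, fun n => ?_⟩
  show f n * g n = Ev n (c * d)
  rw [map_mul, hc, hd]

lemma ES_sum {ι : Type*} (s : Finset ι) {f : ι → ℤ → ℝ} (hf : ∀ i, ES (f i)) :
    ES fun n => ∑ i ∈ s, f i n := by
  choose c hc using hf
  refine ⟨∑ i ∈ s, c i, fun n => ?_⟩
  show ∑ i ∈ s, f i n = Ev n (∑ i ∈ s, c i)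
  rw [map_sum]
  exact Finset.sum_congr rfl fun i _ => hc i n

lemma ES_poly {σ : Type*} (p : MvPolynomial σ ℝ) {f : σ → ℤ → ℝ} (hf : ∀ i, ES (f i)) :
    ES fun n => MvPolynomial.eval (fun i => f i n) p := by
  induction p using MvPolynomial.induction_on with
  | C a => exact ES_congr (fun n => by rw [MvPolynomial.eval_C]) (ES_const a)
  | add p q hp hq => exact ES_congr (fun n => by rw [map_add]) (ES_add hp hq)
  | mul_X p i hp => exact ES_congr (fun n => by rw [map_mul, MvPolynomial.eval_X]) (ES_mul hp (hf i))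

/-- `al` as a homomorphism -/
noncomputable def alHomR : Multiplicative (ℝ × ℝ) →* G where
  toFun x := al (Multiplicative.toAdd x).1 (Multiplicative.toAdd x).2
  map_one' := al_zero
  map_mul' _ _ := (al_mul _ _ _ _).symm

lemma al_zpow (u v : ℝ) (k : ℤ) : al u v ^ k = al (k * u) (k * v) := by
  have h := map_zpow alHomR (Multiplicative.ofAdd (u, v)) k
  have h1 : alHomR (Multiplicative.ofAdd (u, v) ^ k) = al (k * u) (k * v) := by
    rw [← ofAdd_zsmul]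
    show al (k • (u, v)).1 (k • (u, v)).2 = _
    simp [zsmul_eq_mul]
  rw [← h1, h]
  rfl

lemma ES_D (s t : ℝ) (i j : Fin 4) : ES fun n => D (n * s) (n * t) i j := by
  have e4 : ES fun n : ℤ => Real.exp (4 * (n * s)) :=
    ES_congr (fun n => by rw [show 4 * ((n:ℝ) * s) = n * (4 * s) by ring]) (ES_exp (4 * s))
  have e2 : ES fun n : ℤ => Real.exp (2 * (n * s)) :=
    ES_congr (fun n => by rw [show 2 * ((n:ℝ) * s) = n * (2 * s) by ring]) (ES_exp (2 * s))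
  have e0 : ES fun n : ℤ => Real.exp (n * t - 3 * (n * s)) :=
    ES_congr (fun n => by rw [show (n:ℝ) * t - 3 * (n * s) = n * (t - 3 * s) by ring]) (ES_exp (t - 3 * s))
  have e1 : ES fun n : ℤ => Real.exp (-(n * t) - 3 * (n * s)) :=
    ES_congr (fun n => by rw [show -((n:ℝ) * t) - 3 * (n * s) = n * (-t - 3 * s) by ring]) (ES_exp (-t - 3 * s))
  have ep : ES fun n : ℤ => (Real.exp (4 * (n * s)) + Real.exp (2 * (n * s))) / 2 :=
    ES_congr (fun n => by rw [div_eq_mul_inv]) (ES_mul (ES_add e4 e2) (ES_const (2:ℝ)⁻¹))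
  have em : ES fun n : ℤ => (Real.exp (4 * (n * s)) - Real.exp (2 * (n * s))) / 2 :=
    ES_congr (fun n => by
      show (Real.exp (4 * (n * s)) - Real.exp (2 * (n * s))) / 2 =
        (Real.exp (4 * (n * s)) + (-1) * Real.exp (2 * (n * s))) * (2:ℝ)⁻¹
      ring) (ES_mul (ES_add e4 (ES_mul (ES_const (-1)) e2)) (ES_const (2:ℝ)⁻¹))
  fin_cases i <;> fin_cases j <;>
    first
      | exact e0
      | exact e1
      | exact ep
      | exact em
      | exact ES_const 0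

lemma ES_al (s t : ℝ) (i j : Fin 4) : ES fun n => ((al s t) ^ n).1 i j := by
  have h1 : ∀ n : ℤ, ((al s t) ^ n).1 i j = ∑ l, (∑ k, K rr i k * D (n * s) (n * t) k l) * H rr l j := by
    intro n
    rw [al_zpow]
    show (K rr * D (n * s) (n * t) * H rr) i j = _
    rw [Matrix.mul_apply]
    refine Finset.sum_congr rfl fun l _ => ?_
    rw [Matrix.mul_apply]
  refine ES_congr h1 ?_
  refine ES_sum _ fun l => ES_mul (ES_sum _ fun k => ES_mul (ES_const _) (ES_D s t k l)) (ES_const _)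

/-- dominated term -/
lemma tend_exp {x y : Pos} (h : x < y) : Tendsto (fun n : ℤ => ((x : ℝ) / y) ^ n) atTop (𝓝 0) := by
  have hx := x.2
  have hy := y.2
  have hlt : (x : ℝ) < y := h
  have h1 : ∀ n : ℤ, ((x : ℝ) / y) ^ n = Real.exp ((n : ℝ) * Real.log ((x : ℝ) / y)) := by
    intro n
    rw [exp_int, Real.exp_log (by positivity)]
  simp_rw [h1]
  have hlog : Real.log ((x : ℝ) / y) < 0 := Real.log_neg (by positivity) ((div_lt_one hy).2 hlt)
  exact Real.tendsto_exp_atBot.comp (tendsto_intCast_atTop_atTop.atTop_mul_const_of_neg hlog)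

lemma eigen_of_top {m : ℕ} (f : ℤ → Fin m → ℝ) (Λ : Finset Pos) (u : Pos → Fin m → ℝ)
    (hf : ∀ n i, f n i = ∑ x ∈ Λ, u x i * (x : ℝ) ^ n) (h0 : f 0 ≠ 0)
    (T : Matrix (Fin m) (Fin m) ℝ) (hT : ∀ n, T *ᵥ f n = f (n + 1))
    (𝒰 : Filter ℕ) [𝒰.NeBot] (n : ℕ → ℤ) (hn : Tendsto n 𝒰 atTop) (c : ℕ → ℝ) (w : Fin m → ℝ)
    (hw : Tendsto (fun k => c k • f (n k)) 𝒰 (𝓝 w)) : ∃ r : ℝ, 0 < r ∧ T *ᵥ w = r • w := by
  classical
  set Λ' := Λ.filter (fun x => u x ≠ 0) with hΛ'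
  have hf' : ∀ n i, f n i = ∑ x ∈ Λ', u x i * (x : ℝ) ^ n := by
    intro n i
    rw [hf, hΛ', Finset.sum_filter]
    refine Finset.sum_congr rfl fun x _ => ?_
    split_ifs with h
    · rfl
    · push Not at h
      rw [h]; simp
  have hne : Λ'.Nonempty := by
    by_contra hcon
    rw [Finset.not_nonempty_iff_eq_empty] at hcon
    apply h0
    ext i
    rw [hf', hcon]; simp
  set x0 := Λ'.max' hne with hx0
  have hx0mem : x0 ∈ Λ' := Finset.max'_mem _ _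
  have hu0 : u x0 ≠ 0 := (Finset.mem_filter.1 hx0mem).2
  obtain ⟨i0, hi0⟩ : ∃ i, u x0 i ≠ 0 := by
    by_contra hcon
    push Not at hcon
    exact hu0 (funext hcon)
  have hxpos : (0:ℝ) < x0 := x0.2
  let e : ℤ → Fin m → ℝ := fun n i => ∑ x ∈ Λ', u x i * ((x : ℝ) / x0) ^ n
  have he : ∀ n i, f n i = (x0 : ℝ) ^ n * e n i := by
    intro n i
    rw [hf', Finset.mul_sum]
    refine Finset.sum_congr rfl fun x _ => ?_
    rw [div_zpow]
    have : (x0 : ℝ) ^ n ≠ 0 := (zpow_pos hxpos n).ne'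
    field_simp
  have helim : ∀ i, Tendsto (fun n => e n i) atTop (𝓝 (u x0 i)) := by
    intro i
    have h1 : u x0 i = ∑ x ∈ Λ', (if x = x0 then u x i else 0) := by
      rw [Finset.sum_ite_eq' Λ' x0 (fun x => u x i), if_pos hx0mem]
    rw [h1]
    refine tendsto_finsetSum _ fun x hx => ?_
    split_ifs with hxx
    · have : ∀ n : ℤ, u x i * ((x : ℝ) / x0) ^ n = u x i := fun n => by
        rw [hxx, div_self x0.2.ne', _root_.one_zpow, mul_one]
      simp_rw [this]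
      exact tendsto_const_nhds
    · have hlt : x < x0 := lt_of_le_of_ne (Finset.le_max' _ _ hx) hxx
      have := (tendsto_const_nhds (x := u x i)).mul (tend_exp hlt)
      rwa [mul_zero] at this
  -- the coefficient
  let b : ℕ → ℝ := fun k => c k * (x0 : ℝ) ^ (n k)
  have hb1 : ∀ i, Tendsto (fun k => b k * e (n k) i) 𝒰 (𝓝 (w i)) := by
    intro i
    have h1 := (tendsto_pi_nhds.1 hw) i
    refine h1.congr fun k => ?_
    show c k * f (n k) i = b k * e (n k) i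
    rw [he]; ring
  have hb : Tendsto b 𝒰 (𝓝 (w i0 / u x0 i0)) := by
    have h1 := (hb1 i0).div ((helim i0).comp hn) hi0
    refine h1.congr' ?_
    have h2 : ∀ᶠ k in 𝒰, e (n k) i0 ≠ 0 :=
      ((helim i0).comp hn).eventually_ne hi0
    filter_upwards [h2] with k hk
    show b k * e (n k) i0 / e (n k) i0 = b k
    rw [mul_div_cancel_right₀ _ hk]
  set β := w i0 / u x0 i0
  have hwβ : ∀ i, w i = β * u x0 i := by
    intro i
    exact tendsto_nhds_unique (hb1 i) (hb.mul ((helim i).comp hn))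
  refine ⟨x0, hxpos, ?_⟩
  have hTc : Continuous fun z : Fin m → ℝ => T *ᵥ z := continuous_const.matrix_mulVec continuous_id
  have h1 : Tendsto (fun k => T *ᵥ (c k • f (n k))) 𝒰 (𝓝 (T *ᵥ w)) := (hTc.tendsto w).comp hw
  have h2 : Tendsto (fun k => T *ᵥ (c k • f (n k))) 𝒰 (𝓝 ((x0 : ℝ) • w)) := by
    refine tendsto_pi_nhds.2 fun i => ?_
    have hn1 : Tendsto (fun k => n k + 1) 𝒰 atTop := tendsto_atTop_add_const_right _ _ hn
    have h3 := (hb.mul ((helim i).comp hn1)).const_mul (x0 : ℝ)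
    have h4 : (x0 : ℝ) * (β * u x0 i) = ((x0 : ℝ) • w) i := by
      rw [Pi.smul_apply, smul_eq_mul, hwβ]
    rw [h4] at h3
    refine h3.congr fun k => ?_
    rw [Matrix.mulVec_smul, hT, Pi.smul_apply, smul_eq_mul, he, zpow_add_one₀ hxpos.ne']
    show (x0 : ℝ) * (c k * (x0 : ℝ) ^ (n k) * e (n k + 1) i) = _
    ring
  exact tendsto_nhds_unique h1 h2

lemma orbit_ES {m : ℕ} (ρ : G →* GL (Fin m) ℝ) (hρ : IsAlgebraicRep ρ) (s t : ℝ) (v : Fin m → ℝ) :
    ∃ (Λ : Finset Pos) (u : Pos → Fin m → ℝ), ∀ (n : ℤ) (i : Fin m),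
      ((ρ ((al s t) ^ n) : Matrix (Fin m) (Fin m) ℝ) *ᵥ v) i = ∑ x ∈ Λ, u x i * (x : ℝ) ^ n := by
  classical
  have h1 : ∀ i, ES fun n => ((ρ ((al s t) ^ n) : Matrix (Fin m) (Fin m) ℝ) *ᵥ v) i := by
    intro i
    have h2 : ∀ j, ES fun n => (ρ ((al s t) ^ n) : Matrix (Fin m) (Fin m) ℝ) i j := by
      intro j
      obtain ⟨p, hp⟩ := hρ i j
      refine ES_congr (fun n => hp _) ?_
      exact ES_poly p (f := fun kl n => ((al s t) ^ n).1 kl.1 kl.2) fun kl => ES_al s t kl.1 kl.2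
    exact ES_congr (fun n => rfl) (ES_sum Finset.univ fun j => ES_mul (h2 j) (ES_const (v j)))
  choose c hc using h1
  refine ⟨Finset.univ.biUnion fun i => (c i).coeff.support, fun x i => (c i).coeff x, fun n i => ?_⟩
  have hci := hc i n
  beta_reduce at hci
  rw [hci]
  unfold Ev
  rw [MonoidAlgebra.lift_apply]
  rw [Finsupp.sum_of_support_subset (s := Finset.univ.biUnion fun i => (c i).coeff.support)]
  · rfl
  · exact Finset.subset_biUnion_of_mem (fun i => (c i).coeff.support) (Finset.mem_univ i)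
  · intro x _
    simp

lemma limit_pos {m : ℕ} (ρ : G →* GL (Fin m) ℝ) (hρ : IsAlgebraicRep ρ) (s t : ℝ)
    (v w : Fin m → ℝ) (hv : v ≠ 0) (𝒰 : Filter ℕ) [𝒰.NeBot] (n : ℕ → ℤ) (hn : Tendsto n 𝒰 atTop)
    (c : ℕ → ℝ)
    (hw : Tendsto (fun k => c k • ((ρ ((al s t) ^ n k) : Matrix (Fin m) (Fin m) ℝ) *ᵥ v)) 𝒰 (𝓝 w)) :
    ∃ r : ℝ, 0 < r ∧ (ρ (al s t) : Matrix (Fin m) (Fin m) ℝ) *ᵥ w = r • w := by
  obtain ⟨Λ, u, hu⟩ := orbit_ES ρ hρ s t v
  refine eigen_of_top (fun n => (ρ ((al s t) ^ n) : Matrix (Fin m) (Fin m) ℝ) *ᵥ v) Λ u hu ?_ _ ?_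
    𝒰 n hn c w hw
  · simpa using hv
  · intro n
    show (ρ (al s t) : Matrix (Fin m) (Fin m) ℝ) *ᵥ ((ρ ((al s t) ^ n) : Matrix (Fin m) (Fin m) ℝ) *ᵥ v) =
      (ρ ((al s t) ^ (n + 1)) : Matrix (Fin m) (Fin m) ℝ) *ᵥ v
    rw [Matrix.mulVec_mulVec, add_comm n 1, _root_.zpow_one_add, map_mul]
    rfl

/-- change of basis diagonalizing the symmetric block -/
noncomputable def W : Matrix (Fin 4) (Fin 4) ℝ := !![1, 0, 0, 0; 0, 1, 0, 0; 0, 0, 1, 1; 0, 0, 1, -1]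

/-- its inverse -/
noncomputable def W' : Matrix (Fin 4) (Fin 4) ℝ :=
  !![1, 0, 0, 0; 0, 1, 0, 0; 0, 0, 1 / 2, 1 / 2; 0, 0, 1 / 2, -1 / 2]

lemma W'_W : W' * W = 1 := by
  ext i j
  fin_cases i <;> fin_cases j <;> simp [W, W', Matrix.mul_apply, Fin.sum_univ_four, Matrix.one_apply] <;>
    norm_num

lemma W_W' : W * W' = 1 := mul_eq_one_comm.1 W'_W

lemma D_diag (s t : ℝ) : D s t = W * Matrix.diagonal
    ![Real.exp (t - 3 * s), Real.exp (-t - 3 * s), Real.exp (4 * s), Real.exp (2 * s)] * W' := by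
  ext i j
  rw [Matrix.mul_apply, Fin.sum_univ_four]
  simp only [Matrix.mul_diagonal]
  fin_cases i <;> fin_cases j <;> simp [D, W, W'] <;> ring

lemma al_diagonalizable (s t : ℝ) : ∃ (P : GL (Fin 4) ℝ) (d : Fin 4 → ℝ),
    (al s t : Matrix (Fin 4) (Fin 4) ℝ) = (P : Matrix (Fin 4) (Fin 4) ℝ) * Matrix.diagonal d *
      ((P⁻¹ : GL (Fin 4) ℝ) : Matrix (Fin 4) (Fin 4) ℝ) := by
  have h1 : (K rr * W) * (W' * H rr) = 1 := by
    calc (K rr * W) * (W' * H rr) = K rr * (W * W') * H rr := by simp only [Matrix.mul_assoc]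
      _ = 1 := by rw [W_W', Matrix.mul_one, KH hrr]
  refine ⟨⟨K rr * W, W' * H rr, h1, mul_eq_one_comm.1 h1⟩,
    ![Real.exp (t - 3 * s), Real.exp (-t - 3 * s), Real.exp (4 * s), Real.exp (2 * s)], ?_⟩
  show K rr * D s t * H rr = (K rr * W) * _ * (W' * H rr)
  rw [D_diag]
  simp only [Matrix.mul_assoc]

lemma al_unbounded {s t : ℝ} (h : al s t ≠ 1) : ¬ ∃ K : Set G, IsCompact K ∧ ∀ n : ℤ, (al s t) ^ n ∈ K := by
  rintro ⟨K, hK, hn⟩
  have hK' : IsCompact (nm '' K) := hK.image nm_continuous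
  obtain ⟨R, hR⟩ := hK'.isBounded.subset_closedBall 0
  obtain ⟨B, hB⟩ := al_bounded R
  have h1 : ∀ n : ℕ, |(n:ℝ) * s| ≤ B ∧ |(n:ℝ) * t| ≤ B := by
    intro n
    have h2 := hR ⟨_, hn n, rfl⟩
    rw [mem_closedBall_zero_iff, Real.norm_eq_abs, al_zpow] at h2
    have h3 := hB _ _ (le_trans (le_abs_self _) h2)
    simpa using h3
  have key : ∀ x : ℝ, (∀ n : ℕ, |(n:ℝ) * x| ≤ B) → x = 0 := by
    intro x hx
    by_contra hx0
    obtain ⟨n, hn⟩ := exists_nat_gt (B / |x|)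
    have h4 := hx n
    rw [abs_mul, Nat.abs_cast] at h4
    rw [div_lt_iff₀ (abs_pos.2 hx0)] at hn
    linarith
  apply h
  rw [key s fun n => (h1 n).1, key t fun n => (h1 n).2]
  exact al_zero

lemma limit_fixed (s t : ℝ) (m : ℕ) (ρ : G →* GL (Fin m) ℝ) (hρ : IsAlgebraicRep ρ)
    (v w : Fin m → ℝ) (n : ℕ → ℤ) (c : ℕ → ℝ) (hv : v ≠ 0) (hn : Tendsto n atTop cofinite)
    (hw : Tendsto (fun k => c k • ((ρ ((al s t) ^ n k) : Matrix (Fin m) (Fin m) ℝ) *ᵥ v)) atTop (𝓝 w)) :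
    ∃ r : ℝ, (ρ (al s t) : Matrix (Fin m) (Fin m) ℝ) *ᵥ w = r • w := by
  let 𝒰 : Ultrafilter ℕ := Ultrafilter.of atTop
  have hle : (𝒰 : Filter ℕ) ≤ atTop := Ultrafilter.of_le _
  have h1 : Tendsto n 𝒰 (atBot ⊔ atTop) := by
    rw [← Int.cofinite_eq]
    exact hn.mono_left hle
  have h2 : (𝒰.map n : Filter ℤ) ≤ atBot ⊔ atTop := h1
  rcases Ultrafilter.le_sup_iff.1 h2 with hb | ht
  · -- the case of `-∞`
    have h3 : Tendsto (fun k => -n k) (𝒰 : Filter ℕ) atTop := tendsto_neg_atBot_atTop.comp hb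
    have h4 : ∀ k, (al (-s) (-t)) ^ (-n k) = (al s t) ^ n k := by
      intro k
      rw [← al_inv, _root_.inv_zpow', neg_neg]
    have h5 : Tendsto (fun k => c k • ((ρ ((al (-s) (-t)) ^ (-n k)) : Matrix (Fin m) (Fin m) ℝ) *ᵥ v))
        𝒰 (𝓝 w) := by
      simp_rw [h4]
      exact hw.mono_left hle
    obtain ⟨r, hr, h6⟩ := limit_pos ρ hρ (-s) (-t) v w hv 𝒰 (fun k => -n k) h3 c h5
    refine ⟨r⁻¹, ?_⟩
    have h7 : (ρ (al s t) : Matrix (Fin m) (Fin m) ℝ) *ᵥ ((ρ (al (-s) (-t)) : Matrix (Fin m) (Fin m) ℝ) *ᵥ w) = w := by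
      rw [Matrix.mulVec_mulVec]
      have : (ρ (al s t) : Matrix (Fin m) (Fin m) ℝ) * (ρ (al (-s) (-t)) : Matrix (Fin m) (Fin m) ℝ) = 1 := by
        have h8 : ρ (al s t) * ρ (al (-s) (-t)) = 1 := by
          rw [← map_mul, ← al_inv, mul_inv_cancel, map_one]
        exact congrArg Units.val h8
      rw [this, Matrix.one_mulVec]
    rw [h6, Matrix.mulVec_smul] at h7
    have h9 : r⁻¹ • (r • ((ρ (al s t) : Matrix (Fin m) (Fin m) ℝ) *ᵥ w)) = r⁻¹ • w := congrArg _ h7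
    rw [smul_smul, inv_mul_cancel₀ hr.ne', one_smul] at h9
    exact h9
  · obtain ⟨r, hr, h6⟩ := limit_pos ρ hρ s t v w hv 𝒰 n ht c (hw.mono_left hle)
    exact ⟨r, h6⟩

theorem classA {a : G} (ha : a ∈ A) (ha1 : a ≠ 1) : IsClassA a := by
  obtain ⟨s, t, rfl⟩ := ha
  exact ⟨al_diagonalizable s t, al_unbounded ha1,
    fun m ρ hρ v w n c hv _ hn hw => limit_fixed s t m ρ hρ v w n c hv hn hw⟩

end Pool.Agent.TH225.OC
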