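import Mathlib
import Pool.Agent.TH225.OC.Gal

set_option autoImplicit false

namespace Pool.Agent.TH225.OC

open Matrix Topology Filter
open Pool.Agent.Helper813 (tv sl_induction tv_comm)

lemma kh_entry (k i : Fin 4) : K rr k 0 * H rr 0 i + K rr k 1 * H rr 1 i + K rr k 2 * H rr 2 i +
    K rr k 3 * H rr 3 i = if k = i then 1 else 0 := by
  have h := congrFun (congrFun (KH hrr) k) i
  rw [Matrix.mul_apply, Fin.sum_univ_four, Matrix.one_apply] at h
  exact h

lemma col_mem {N : Subgroup G} (hW : ∀ j y, Wg (rr j) y ∈ N) {i : Fin 4} (hi : i ≠ 3) (a : ℝ) :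
    tv hi a ∈ N := by
  have h1 : Wg (rr 0) (a * (H rr 0 i / fp (rr 0))) * Wg (rr 1) (a * (H rr 1 i / fp (rr 1))) *
      Wg (rr 2) (a * (H rr 2 i / fp (rr 2))) = tv hi a := by
    have k0 := kh_entry 0 i
    have k1 := kh_entry 1 i
    have k2 := kh_entry 2 i
    apply Subtype.ext
    ext k l
    fin_cases i
    · fin_cases k <;> fin_cases l <;>
        simp [Wg, K, H, Matrix.mul_apply, Fin.sum_univ_four, Matrix.SpecialLinearGroup.transvection,
          Matrix.transvection] at k0 k1 k2 ⊢
      · linear_combination a * k0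
      · linear_combination a * k1
      · linear_combination a * k2
    · fin_cases k <;> fin_cases l <;>
        simp [Wg, K, H, Matrix.mul_apply, Fin.sum_univ_four, Matrix.SpecialLinearGroup.transvection,
          Matrix.transvection] at k0 k1 k2 ⊢
      · linear_combination a * k0
      · linear_combination a * k1
      · linear_combination a * k2
    · fin_cases k <;> fin_cases l <;>
        simp [Wg, K, H, Matrix.mul_apply, Fin.sum_univ_four, Matrix.SpecialLinearGroup.transvection,
          Matrix.transvection] at k0 k1 k2 ⊢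
      · linear_combination a * k0
      · linear_combination a * k1
      · linear_combination a * k2
    · exact absurd rfl hi
  rw [← h1]
  exact mul_mem (mul_mem (hW 0 _) (hW 1 _)) (hW 2 _)

lemma row_mem {N : Subgroup G} (hV : ∀ j y, Vg (rr j) y ∈ N) {i : Fin 4} (hi : (3 : Fin 4) ≠ i) (a : ℝ) :
    tv hi a ∈ N := by
  have h1 : Vg (rr 0) (a * K rr i 0) * Vg (rr 1) (a * K rr i 1) * Vg (rr 2) (a * K rr i 2) = tv hi a := by
    have k0 := kh_entry i 0
    have k1 := kh_entry i 1
    have k2 := kh_entry i 2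
    apply Subtype.ext
    ext k l
    fin_cases i
    · fin_cases k <;> fin_cases l <;>
        simp [Vg, K, H, Matrix.mul_apply, Fin.sum_univ_four, Matrix.SpecialLinearGroup.transvection,
          Matrix.transvection] at k0 k1 k2 ⊢
      · linear_combination a * k0
      · linear_combination a * k1
      · linear_combination a * k2
    · fin_cases k <;> fin_cases l <;>
        simp [Vg, K, H, Matrix.mul_apply, Fin.sum_univ_four, Matrix.SpecialLinearGroup.transvection,
          Matrix.transvection] at k0 k1 k2 ⊢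
      · linear_combination a * k0
      · linear_combination a * k1
      · linear_combination a * k2
    · fin_cases k <;> fin_cases l <;>
        simp [Vg, K, H, Matrix.mul_apply, Fin.sum_univ_four, Matrix.SpecialLinearGroup.transvection,
          Matrix.transvection] at k0 k1 k2 ⊢
      · linear_combination a * k0
      · linear_combination a * k1
      · linear_combination a * k2
    · exact absurd rfl hi
  rw [← h1]
  exact mul_mem (mul_mem (hV 0 _) (hV 1 _)) (hV 2 _)

lemma top_of_unip {N : Subgroup G} (hW : ∀ j y, Wg (rr j) y ∈ N) (hV : ∀ j y, Vg (rr j) y ∈ N) :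
    N = ⊤ := by
  refine le_antisymm le_top (fun x _ => ?_)
  refine sl_induction (fun x => x ∈ N) ?_ (fun A B => mul_mem) x
  intro i j hij a
  by_cases h3 : j = 3
  · subst h3
    exact col_mem hW hij a
  · by_cases h4 : i = 3
    · subst h4
      exact row_mem hV hij a
    · rw [← tv_comm hij h4 (Ne.symm h3) a, commutatorElement_def]
      have h5 := col_mem hW h4 a
      have h6 := row_mem hV (Ne.symm h3) 1
      exact mul_mem (mul_mem (mul_mem h5 h6) (inv_mem h5)) (inv_mem h6)

/-- the commutator-type matrices -/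
noncomputable def EE (p q p' q' d d' : ℝ) : Matrix (Fin 4) (Fin 4) ℝ :=
  !![1, 0, 0, 0; 0, 1, 0, 0; 0, 0, p * p' + d / d' * (q * q'), d' * (p * q') + d * (q * p');
     0, 0, 1 / d * (q * p') + 1 / d' * (p * q'), d' / d * (q * q') + p * p']

lemma be_al_be (σ : ℝ) {d d' : ℝ} (hd : 0 < d) (hd' : 0 < d') :
    M (-Real.log d) 0 * D σ 0 * M (Real.log d) 0 * (M (-Real.log d') 0 * D (-σ) 0 * M (Real.log d') 0) =
      EE ((Real.exp (4 * σ) + Real.exp (2 * σ)) / 2) ((Real.exp (4 * σ) - Real.exp (2 * σ)) / 2)
        ((Real.exp (4 * -σ) + Real.exp (2 * -σ)) / 2) ((Real.exp (4 * -σ) - Real.exp (2 * -σ)) / 2) d d' := by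
  have e1 : Real.exp (0 - 3 * σ) * Real.exp (0 - 3 * -σ) = 1 := by
    rw [← Real.exp_add]; ring_nf; exact Real.exp_zero
  have e2 : Real.exp (-0 - 3 * σ) * Real.exp (-0 - 3 * -σ) = 1 := by
    rw [← Real.exp_add]; ring_nf; exact Real.exp_zero
  have l1 : Real.exp (-Real.log d) = d⁻¹ := by rw [Real.exp_neg, Real.exp_log hd]
  have l2 : Real.exp (-Real.log d') = d'⁻¹ := by rw [Real.exp_neg, Real.exp_log hd']
  have hd0 := hd.ne'
  have hd0' := hd'.ne'
  have x1 : Real.exp (-(3 * σ)) * Real.exp (3 * σ) = 1 := by rw [← Real.exp_add]; simp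
  unfold EE
  ext i j
  fin_cases i <;> fin_cases j <;>
    simp [M, D, Matrix.mul_apply, Fin.sum_univ_four, l1, l2, Real.exp_log hd, Real.exp_log hd'] <;>
    field_simp <;> first | done | linear_combination x1 | ring

lemma EE_det (σ : ℝ) {d d' : ℝ} (hd : 0 < d) (hd' : 0 < d') :
      (EE ((Real.exp (4 * σ) + Real.exp (2 * σ)) / 2) ((Real.exp (4 * σ) - Real.exp (2 * σ)) / 2)
        ((Real.exp (4 * -σ) + Real.exp (2 * -σ)) / 2) ((Real.exp (4 * -σ) - Real.exp (2 * -σ)) / 2) d d').det
        = 1 := by
  rw [← be_al_be σ hd hd']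
  simp only [Matrix.det_mul, M_det, D_det, mul_one]

end Pool.Agent.TH225.OC
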