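import Mathlib
import Pool.Agent.TH225.OC.Gen

set_option autoImplicit false

namespace Pool.Agent.TH225.OC

open Matrix Topology Filter

lemma tend_div_one (y : ℝ) : Tendsto (fun T : ℝ => (T + y) / T) atTop (𝓝 1) := by
  have h1 : Tendsto (fun T : ℝ => 1 + y * T⁻¹) atTop (𝓝 (1 + y * 0)) :=
    tendsto_const_nhds.add (tendsto_const_nhds.mul tendsto_inv_atTop_zero)
  rw [mul_zero, add_zero] at h1
  refine h1.congr' ?_
  filter_upwards [eventually_gt_atTop (0:ℝ)] with T hT
  field_simp

lemma tend_one_div (y : ℝ) : Tendsto (fun T : ℝ => T / (T + y)) atTop (𝓝 1) := by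
  have h := (tend_div_one y).inv₀ one_ne_zero
  rw [inv_one] at h
  refine h.congr fun T => ?_
  rw [inv_div]

lemma tend_inv_add (y : ℝ) : Tendsto (fun T : ℝ => 1 / (T + y)) atTop (𝓝 0) := by
  have h : Tendsto (fun T : ℝ => T + y) atTop atTop := tendsto_atTop_add_const_right _ _ tendsto_id
  refine (tendsto_inv_atTop_zero.comp h).congr fun T => ?_
  simp [one_div]

lemma lim_EE (p q p' q' y : ℝ) (h1 : p * p' + q * q' = 1) (h0 : p * q' + q * p' = 0) :
    Tendsto (fun T => EE p q p' q' (T + y) T) atTop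
      (𝓝 !![1, 0, 0, 0; 0, 1, 0, 0; 0, 0, 1, y * (q * p'); 0, 0, 0, 1]) := by
  have e1 := tend_div_one y
  have e2 := tend_one_div y
  have e3 := tend_inv_add y
  have e4 := tend_inv_add 0
  simp only [add_zero] at e4
  refine tendsto_pi_nhds.2 fun i => tendsto_pi_nhds.2 fun j => ?_
  have a22 : Tendsto (fun T : ℝ => p * p' + (T + y) / T * (q * q')) atTop (𝓝 1) := by
    have := tendsto_const_nhds (x := p * p').add (e1.mul (tendsto_const_nhds (x := q * q')))
    rwa [one_mul, h1] at this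
  have a33 : Tendsto (fun T : ℝ => T / (T + y) * (q * q') + p * p') atTop (𝓝 1) := by
    have := (e2.mul (tendsto_const_nhds (x := q * q'))).add (tendsto_const_nhds (x := p * p'))
    rwa [one_mul, add_comm (q * q'), h1] at this
  have a23 : Tendsto (fun T : ℝ => T * (p * q') + (T + y) * (q * p')) atTop (𝓝 (y * (q * p'))) := by
    refine tendsto_const_nhds.congr fun T => ?_
    linear_combination (-T) * h0
  have a32 : Tendsto (fun T : ℝ => 1 / (T + y) * (q * p') + 1 / T * (p * q')) atTop (𝓝 0) := by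
    have := (e3.mul (tendsto_const_nhds (x := q * p'))).add (e4.mul (tendsto_const_nhds (x := p * q')))
    rwa [zero_mul, zero_mul, add_zero] at this
  fin_cases i <;> fin_cases j <;>
    first
      | exact tendsto_const_nhds
      | exact a22
      | exact a23
      | exact a32
      | exact a33

lemma lim_EE' (p q p' q' y : ℝ) (h1 : p * p' + q * q' = 1) (h0 : p * q' + q * p' = 0) :
    Tendsto (fun T => EE p q p' q' (1 / (T + y)) (1 / T)) atTop
      (𝓝 !![1, 0, 0, 0; 0, 1, 0, 0; 0, 0, 1, 0; 0, 0, y * (q * p'), 1]) := by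
  have e1 := tend_div_one y
  have e2 := tend_one_div y
  have e3 := tend_inv_add y
  have e4 := tend_inv_add 0
  simp only [add_zero] at e4
  refine tendsto_pi_nhds.2 fun i => tendsto_pi_nhds.2 fun j => ?_
  have hy : ∀ᶠ T : ℝ in atTop, 0 < T + y := by
    filter_upwards [eventually_gt_atTop (-y)] with T hT
    linarith
  have a22 : Tendsto (fun T : ℝ => p * p' + (1 / (T + y)) / (1 / T) * (q * q')) atTop (𝓝 1) := by
    have := tendsto_const_nhds (x := p * p').add (e2.mul (tendsto_const_nhds (x := q * q')))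
    rw [one_mul, h1] at this
    refine this.congr' ?_
    filter_upwards [hy, eventually_gt_atTop (0:ℝ)] with T hT hT'
    field_simp
  have a33 : Tendsto (fun T : ℝ => (1 / T) / (1 / (T + y)) * (q * q') + p * p') atTop (𝓝 1) := by
    have := (e1.mul (tendsto_const_nhds (x := q * q'))).add (tendsto_const_nhds (x := p * p'))
    rw [one_mul, add_comm (q * q'), h1] at this
    refine this.congr' ?_
    filter_upwards [hy, eventually_gt_atTop (0:ℝ)] with T hT hT'
    field_simp
  have a23 : Tendsto (fun T : ℝ => 1 / T * (p * q') + 1 / (T + y) * (q * p')) atTop (𝓝 0) := by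
    have := (e4.mul (tendsto_const_nhds (x := p * q'))).add (e3.mul (tendsto_const_nhds (x := q * p')))
    rwa [zero_mul, zero_mul, add_zero] at this
  have a32 : Tendsto (fun T : ℝ => 1 / (1 / (T + y)) * (q * p') + 1 / (1 / T) * (p * q')) atTop
      (𝓝 (y * (q * p'))) := by
    refine tendsto_const_nhds.congr fun T => ?_
    rw [one_div_one_div, one_div_one_div]
    linear_combination (-T) * h0
  fin_cases i <;> fin_cases j <;>
    first
      | exact tendsto_const_nhds
      | exact a22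
      | exact a23
      | exact a32
      | exact a33

/-- elements of the closed subgroup -/
noncomputable def xx (σ d d' : ℝ) : G :=
  be (-Real.log d) 0 * al σ 0 * be (Real.log d) 0 *
    (be (-Real.log d') 0 * al (-σ) 0 * be (Real.log d') 0)

lemma xx_mem {N : Subgroup G} (hbe : ∀ u v, be u v ∈ N) {σ : ℝ} (hal : al σ 0 ∈ N) (d d' : ℝ) :
    xx σ d d' ∈ N := by
  have h : al (-σ) 0 ∈ N := by
    have := inv_mem hal
    rwa [al_inv, neg_zero] at this
  exact mul_mem (mul_mem (mul_mem (hbe _ _) hal) (hbe _ _))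
    (mul_mem (mul_mem (hbe _ _) h) (hbe _ _))

lemma xx_coe (σ : ℝ) {d d' : ℝ} (hd : 0 < d) (hd' : 0 < d') : (xx σ d d').1 = K rr *
      (EE ((Real.exp (4 * σ) + Real.exp (2 * σ)) / 2) ((Real.exp (4 * σ) - Real.exp (2 * σ)) / 2)
        ((Real.exp (4 * -σ) + Real.exp (2 * -σ)) / 2) ((Real.exp (4 * -σ) - Real.exp (2 * -σ)) / 2) d d') *
        H rr := by
  rw [← be_al_be σ hd hd']
  unfold xx
  unfold be al
  rw [cj_mul, cj_mul, cj_mul, cj_mul, cj_mul]
  rfl

lemma PQ (σ : ℝ) : ((Real.exp (4 * σ) + Real.exp (2 * σ)) / 2) * ((Real.exp (4 * -σ) + Real.exp (2 * -σ)) / 2) +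
    ((Real.exp (4 * σ) - Real.exp (2 * σ)) / 2) * ((Real.exp (4 * -σ) - Real.exp (2 * -σ)) / 2) = 1 ∧
    ((Real.exp (4 * σ) + Real.exp (2 * σ)) / 2) * ((Real.exp (4 * -σ) - Real.exp (2 * -σ)) / 2) +
    ((Real.exp (4 * σ) - Real.exp (2 * σ)) / 2) * ((Real.exp (4 * -σ) + Real.exp (2 * -σ)) / 2) = 0 := by
  have e1 : Real.exp (4 * σ) * Real.exp (4 * -σ) = 1 := by
    rw [← Real.exp_add]; ring_nf; exact Real.exp_zero
  have e2 : Real.exp (2 * σ) * Real.exp (2 * -σ) = 1 := by
    rw [← Real.exp_add]; ring_nf; exact Real.exp_zero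
  constructor
  · linear_combination (1/2) * e1 + (1/2) * e2
  · linear_combination (1/2) * e1 - (1/2) * e2

lemma K_W (c : ℝ) : K rr * !![1, 0, 0, 0; 0, 1, 0, 0; 0, 0, 1, c * fp (rr 2); 0, 0, 0, 1] * H rr =
    (Wg (rr 2) c).1 := by
  have h : !![1, 0, 0, 0; 0, 1, 0, 0; 0, 0, 1, c * fp (rr 2); 0, 0, 0, 1] * H rr =
      H rr * (Wg (rr 2) c).1 := by
    have e02 := cross hrr (show (0:Fin 3) ≠ 2 by decide)
    have e12 := cross hrr (show (1:Fin 3) ≠ 2 by decide)
    ext i j
    fin_cases i <;> fin_cases j <;>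
      simp [H, Wg, Matrix.mul_apply, Fin.sum_univ_four]
    · linear_combination (-c) * e02
    · linear_combination (-c) * e12
    · unfold fp; ring
  rw [Matrix.mul_assoc, h, ← Matrix.mul_assoc, KH hrr, Matrix.one_mul]

lemma K_V (c : ℝ) : K rr * !![1, 0, 0, 0; 0, 1, 0, 0; 0, 0, 1, 0; 0, 0, c, 1] * H rr =
    (Vg (rr 2) c).1 := by
  have h : !![1, 0, 0, 0; 0, 1, 0, 0; 0, 0, 1, 0; 0, 0, c, 1] * H rr =
      H rr * (Vg (rr 2) c).1 := by
    ext i j
    fin_cases i <;> fin_cases j <;>
      simp [H, Vg, Matrix.mul_apply, Fin.sum_univ_four]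
  rw [Matrix.mul_assoc, h, ← Matrix.mul_assoc, KH hrr, Matrix.one_mul]

lemma qp_ne {σ : ℝ} (hσ : σ ≠ 0) : ((Real.exp (4 * σ) - Real.exp (2 * σ)) / 2) *
    ((Real.exp (4 * -σ) + Real.exp (2 * -σ)) / 2) ≠ 0 := by
  refine mul_ne_zero ?_ (by positivity)
  intro h
  have h1 : Real.exp (4 * σ) = Real.exp (2 * σ) := by linarith
  have h2 := Real.exp_injective h1
  apply hσ
  linarith

lemma lim_mem {N : Subgroup G} (hN : IsClosed (N : Set G)) (hbe : ∀ u v, be u v ∈ N) {σ : ℝ}
    (hσ : σ ≠ 0) (hal : al σ 0 ∈ N) : (∀ y, Wg (rr 2) y ∈ N) ∧ (∀ y, Vg (rr 2) y ∈ N) := by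
  obtain ⟨h1, h0⟩ := PQ σ
  have hqp := qp_ne hσ
  set p := (Real.exp (4 * σ) + Real.exp (2 * σ)) / 2
  set q := (Real.exp (4 * σ) - Real.exp (2 * σ)) / 2
  set p' := (Real.exp (4 * -σ) + Real.exp (2 * -σ)) / 2
  set q' := (Real.exp (4 * -σ) - Real.exp (2 * -σ)) / 2
  constructor
  · intro y0
    set y := y0 * fp (rr 2) / (q * p') with hy
    have hyy : y * (q * p') = y0 * fp (rr 2) := by rw [hy, div_mul_cancel₀ _ hqp]
    have hlim : Tendsto (fun T : ℝ => xx σ (T + y) T) atTop (𝓝 (Wg (rr 2) y0)) := by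
      refine tendsto_subtype_rng.2 ?_
      have h2 := lim_EE p q p' q' y h1 h0
      rw [hyy] at h2
      have h3 : Tendsto (fun T : ℝ => K rr * EE p q p' q' (T + y) T * H rr) atTop
          (𝓝 (Wg (rr 2) y0).1) := by
        rw [← K_W]
        exact ((continuous_const.matrix_mul continuous_id).matrix_mul continuous_const).continuousAt.tendsto.comp h2
      refine h3.congr' ?_
      filter_upwards [eventually_gt_atTop (0:ℝ), eventually_gt_atTop (-y)] with T hT hT'
      exact (xx_coe σ (by linarith) hT).symm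
    exact hN.mem_of_tendsto hlim (Eventually.of_forall fun T => xx_mem hbe hal _ _)
  · intro y0
    set y := y0 / (q * p') with hy
    have hyy : y * (q * p') = y0 := by rw [hy, div_mul_cancel₀ _ hqp]
    have hlim : Tendsto (fun T : ℝ => xx σ (1 / (T + y)) (1 / T)) atTop (𝓝 (Vg (rr 2) y0)) := by
      refine tendsto_subtype_rng.2 ?_
      have h2 := lim_EE' p q p' q' y h1 h0
      rw [hyy] at h2
      have h3 : Tendsto (fun T : ℝ => K rr * EE p q p' q' (1 / (T + y)) (1 / T) * H rr) atTop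
          (𝓝 (Vg (rr 2) y0).1) := by
        rw [← K_V]
        exact ((continuous_const.matrix_mul continuous_id).matrix_mul continuous_const).continuousAt.tendsto.comp h2
      refine h3.congr' ?_
      filter_upwards [eventually_gt_atTop (0:ℝ), eventually_gt_atTop (-y)] with T hT hT'
      exact (xx_coe σ (by have : 0 < T + y := by linarith
                          positivity) (by positivity)).symm
    exact hN.mem_of_tendsto hlim (Eventually.of_forall fun T => xx_mem hbe hal _ _)

end Pool.Agent.TH225.OC
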