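import Mathlib
import Pool.Agent.TH225.OC.HR
import Pool.Agent.TH225.OC.Lim

set_option autoImplicit false

namespace Pool.Agent.TH225.OC

open Matrix Topology Filter

/-- the base point -/
def x0 : X := QuotientGroup.mk 1

lemma orb_eq : orb A x0 = (QuotientGroup.mk : G → X) '' AG := by
  ext y
  constructor
  · rintro ⟨a, ha, rfl⟩
    refine ⟨a, ⟨a, ha, 1, one_mem _, (mul_one a).symm⟩, ?_⟩
    show (QuotientGroup.mk a : X) = QuotientGroup.mk (a * 1)
    rw [mul_one]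
  · rintro ⟨g, ⟨a, ha, γ, hγ, rfl⟩, rfl⟩
    refine ⟨a, ha, ?_⟩
    show (QuotientGroup.mk (a * γ) : X) = QuotientGroup.mk (a * 1)
    rw [QuotientGroup.eq]
    have : (a * γ)⁻¹ * (a * 1) = γ⁻¹ := by group
    rw [this]
    exact inv_mem hγ

lemma mk_mem_orb {g : G} (h : (QuotientGroup.mk g : X) ∈ orb A x0) : g ∈ AG := by
  rw [orb_eq] at h
  obtain ⟨g', ⟨a, ha, γ, hγ, rfl⟩, h⟩ := h
  rw [QuotientGroup.eq] at h
  refine ⟨a, ha, γ * ((a * γ)⁻¹ * g), mul_mem hγ h, ?_⟩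
  group

lemma AG_mul {g γ : G} (hg : g ∈ AG) (hγ : γ ∈ Gam) : g * γ ∈ AG := by
  obtain ⟨a, ha, δ, hδ, rfl⟩ := hg
  exact ⟨a, ha, δ * γ, mul_mem hδ hγ, by group⟩

lemma orb_not_dense : ¬ Dense (orb A x0) := by
  intro hd
  obtain ⟨g, hg⟩ := not_in_closure
  apply hg
  have h1 : (QuotientGroup.mk : G → X) ⁻¹' (closure (orb A x0)) = Set.univ := by
    rw [hd.closure_eq]; rfl
  have h2 : (QuotientGroup.mk : G → X) ⁻¹' (closure (orb A x0)) ⊆ closure AG := by
    have hopen : IsOpenMap (QuotientGroup.mk : G → X) := QuotientGroup.isOpenMap_coe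
    refine (hopen.preimage_closure_subset_closure_preimage).trans (closure_mono ?_)
    intro y hy
    exact mk_mem_orb hy
  exact h2 (h1 ▸ Set.mem_univ g)

lemma mem_closure_orb (s u v : ℝ) :
    (QuotientGroup.mk (al s 0 * be u v) : X) ∈ closure (orb A x0) := by
  have h := al_be_mem_closure s u v
  have hc : Continuous (QuotientGroup.mk : G → X) := continuous_quotient_mk'
  have h1 := image_closure_subset_closure_image (s := AG) hc
  rw [orb_eq]
  exact h1 ⟨_, h, rfl⟩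

lemma be_neg_not_mem_A {δ : ℝ} (hδ : δ ≠ 0) : be 0 δ ∉ A := by
  rintro ⟨s, t, h⟩
  have h1 : M 0 δ = D s t := by
    have h2 : H rr * (be 0 δ).1 * K rr = H rr * (al s t).1 * K rr := by rw [h]
    rw [H_al_K] at h2
    have h3 : H rr * (be 0 δ).1 * K rr = M 0 δ := H_cj_K hrr _ _
    rw [← h3, h2]
  have h23 := congrFun (congrFun h1 2) 3
  have h22 := congrFun (congrFun h1 2) 2
  have e23 : (0:ℝ) = (Real.exp (4 * s) - Real.exp (2 * s)) / 2 := h23
  have e22 : Real.exp (-0 - δ) = (Real.exp (4 * s) + Real.exp (2 * s)) / 2 := h22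
  have h4 : Real.exp (4 * s) = Real.exp (2 * s) := by linarith
  have h5 := Real.exp_injective h4
  have h6 : s = 0 := by linarith
  subst h6
  simp at e22
  exact hδ e22

/-- the cover: a countable family of proper `ℚ`-subgroups does not capture the closure -/
theorem not_subset {ι : Type} [Countable ι] (L : ι → QSubgroup) (g : ι → G)
    (hL : ∀ i, (L i).Proper) : ¬ closure (orb A x0) ⊆ orb A x0 ∪ ⋃ i, coset (g i) (L i) := by
  intro hsub
  -- countability of Γ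
  have hcG : Countable (Matrix.SpecialLinearGroup (Fin 4) ℤ) := by
    have : Countable (Matrix (Fin 4) (Fin 4) ℤ) := inferInstanceAs (Countable (Fin 4 → Fin 4 → ℤ))
    exact Subtype.countable
  let cst : Matrix.SpecialLinearGroup (Fin 4) ℤ → G := fun γ => Matrix.SpecialLinearGroup.map (Int.castRingHom ℝ) γ
  let P : ℝ × ℝ × ℝ → G := fun z => al z.1 0 * be z.2.1 z.2.2
  have hP : Continuous P := (al_cont2 continuous_fst continuous_const).mul
    (be_cont2 (continuous_fst.comp continuous_snd) (continuous_snd.comp continuous_snd))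
  let f : Matrix.SpecialLinearGroup (Fin 4) ℤ ⊕ (ι × Matrix.SpecialLinearGroup (Fin 4) ℤ) → Set (ℝ × ℝ × ℝ) :=
    Sum.elim (fun γ => {z | P z * (cst γ)⁻¹ ∈ A})
      (fun x => {z | (g x.1)⁻¹ * P z * (cst x.2)⁻¹ ∈ (L x.1).real})
  have hclosed : ∀ k, IsClosed (f k) := by
    rintro (γ | ⟨i, γ⟩)
    · exact A_closed.preimage (hP.mul continuous_const)
    · exact (real_closed (L i)).preimage ((continuous_const.mul hP).mul continuous_const)
  have hcover : ⋃ k, f k = Set.univ := by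
    refine Set.eq_univ_of_forall fun z => ?_
    rcases hsub (mem_closure_orb z.1 z.2.1 z.2.2) with h | h
    · obtain ⟨a, ha, _, ⟨γ, rfl⟩, h1⟩ := mk_mem_orb h
      refine Set.mem_iUnion.2 ⟨Sum.inl γ, ?_⟩
      show P z * (cst γ)⁻¹ ∈ A
      have : P z * (cst γ)⁻¹ = a := by
        show al z.1 0 * be z.2.1 z.2.2 * (cst γ)⁻¹ = a
        rw [h1]; exact mul_inv_cancel_right _ _
      rw [this]; exact ha
    · obtain ⟨i, l, hl, h1⟩ := Set.mem_iUnion.1 h
      rw [QuotientGroup.eq] at h1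
      obtain ⟨γ, hγ⟩ := h1
      refine Set.mem_iUnion.2 ⟨Sum.inr (i, γ⁻¹), ?_⟩
      show (g i)⁻¹ * P z * (cst γ⁻¹)⁻¹ ∈ (L i).real
      have e1 : (cst γ⁻¹)⁻¹ = cst γ := by
        show (Matrix.SpecialLinearGroup.map (Int.castRingHom ℝ) γ⁻¹)⁻¹ = _
        rw [map_inv, inv_inv]
      rw [e1]
      have e2 : cst γ = (P z)⁻¹ * (g i * l) := hγ
      rw [e2]
      have : (g i)⁻¹ * P z * ((P z)⁻¹ * (g i * l)) = l := by group
      rw [this]; exact hl
  obtain ⟨k, ⟨z0, hz0⟩⟩ := nonempty_interior_of_iUnion_of_closed hclosed hcover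
  rw [mem_interior_iff_mem_nhds, Metric.mem_nhds_iff] at hz0
  obtain ⟨ε, hε, hball⟩ := hz0
  have hnear : ∀ a b c : ℝ, |a| < ε → |b| < ε → |c| < ε → (z0.1 + a, z0.2.1 + b, z0.2.2 + c) ∈ f k := by
    intro a b c ha hb hc
    apply hball
    rw [Metric.mem_ball, Prod.dist_eq, Prod.dist_eq]
    simp only [Real.dist_eq, add_sub_cancel_left]
    exact max_lt ha (max_lt hb hc)
  have h0 := hnear 0 0 0 (by simpa using hε) (by simpa using hε) (by simpa using hε)
  have hε2 : |ε / 2| < ε := by rw [abs_of_pos (by positivity)]; linarith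
  rcases k with γ | ⟨i, γ⟩
  · -- the orbit itself
    have h1 := hnear 0 0 (ε / 2) (by simpa using hε) (by simpa using hε) hε2
    have m0 : al (z0.1 + 0) 0 * be (z0.2.1 + 0) (z0.2.2 + 0) * (cst γ)⁻¹ ∈ A := h0
    have m1 : al (z0.1 + 0) 0 * be (z0.2.1 + 0) (z0.2.2 + ε / 2) * (cst γ)⁻¹ ∈ A := h1
    simp only [add_zero] at m0 m1
    have m2 := mul_mem (inv_mem (show al z0.1 0 ∈ A from ⟨_, _, rfl⟩)) (mul_mem (mul_mem m1 (inv_mem m0))
      (show al z0.1 0 ∈ A from ⟨_, _, rfl⟩))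
    have e : (al z0.1 0)⁻¹ * (al z0.1 0 * be z0.2.1 (z0.2.2 + ε / 2) * (cst γ)⁻¹ *
      (al z0.1 0 * be z0.2.1 z0.2.2 * (cst γ)⁻¹)⁻¹ * al z0.1 0) = be z0.2.1 (z0.2.2 + ε / 2) *
        (be z0.2.1 z0.2.2)⁻¹ := by group
    rw [e, be_inv, be_mul] at m2
    rw [add_neg_cancel, show z0.2.2 + ε / 2 + -z0.2.2 = ε / 2 by ring] at m2
    exact be_neg_not_mem_A (by positivity) m2
  · -- one of the subgroups
    set N := cjN (L i) (cst γ) with hN
    have hmem : ∀ z z' : ℝ × ℝ × ℝ, z ∈ f (Sum.inr (i, γ)) → z' ∈ f (Sum.inr (i, γ)) →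
        (P z)⁻¹ * P z' ∈ N := by
      intro z z' hz hz'
      have hz1 : (g i)⁻¹ * P z * (cst γ)⁻¹ ∈ (L i).real := hz
      have hz1' : (g i)⁻¹ * P z' * (cst γ)⁻¹ ∈ (L i).real := hz'
      rw [hN, mem_cjN]
      have h2 := mul_mem (inv_mem hz1) hz1'
      have e : ((g i)⁻¹ * P z * (cst γ)⁻¹)⁻¹ * ((g i)⁻¹ * P z' * (cst γ)⁻¹) =
        cst γ * ((P z)⁻¹ * P z') * (cst γ)⁻¹ := by group
      rwa [e] at h2
    have hbe_small : ∀ b c : ℝ, |b| < ε → |c| < ε → be b c ∈ N := by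
      intro b c hb hc
      have h1 := hmem _ _ h0 (hnear 0 b c (by simpa using hε) hb hc)
      have e : (P (z0.1 + 0, z0.2.1 + 0, z0.2.2 + 0))⁻¹ * P (z0.1 + 0, z0.2.1 + b, z0.2.2 + c) = be b c := by
        show (al (z0.1 + 0) 0 * be (z0.2.1 + 0) (z0.2.2 + 0))⁻¹ *
          (al (z0.1 + 0) 0 * be (z0.2.1 + b) (z0.2.2 + c)) = be b c
        simp only [add_zero]
        have e1 : (al z0.1 0 * be z0.2.1 z0.2.2)⁻¹ * (al z0.1 0 * be (z0.2.1 + b) (z0.2.2 + c)) =
          (be z0.2.1 z0.2.2)⁻¹ * be (z0.2.1 + b) (z0.2.2 + c) := by group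
        rw [e1, be_inv, be_mul]
        congr 1 <;> ring
      rwa [e] at h1
    have hbe : ∀ b c : ℝ, be b c ∈ N := by
      intro b c
      obtain ⟨n, hn⟩ := exists_nat_gt ((|b| + |c|) / ε)
      have hn0 : 0 < (n : ℝ) := lt_of_le_of_lt (by positivity) hn
      have hlt : |b| + |c| < ε * n := by
        rw [div_lt_iff₀ hε] at hn; linarith
      have h1 : be (b / n) (c / n) ∈ N := by
        apply hbe_small
        · rw [abs_div, abs_of_pos hn0, div_lt_iff₀ hn0]; linarith [abs_nonneg c]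
        · rw [abs_div, abs_of_pos hn0, div_lt_iff₀ hn0]; linarith [abs_nonneg b]
      have h2 := zpow_mem h1 (n : ℤ)
      rw [be_zpow] at h2
      have e1 : ((n : ℤ) : ℝ) * (b / n) = b := by push_cast; field_simp
      have e2 : ((n : ℤ) : ℝ) * (c / n) = c := by push_cast; field_simp
      rwa [e1, e2] at h2
    have hal : al (ε / 2) 0 ∈ N := by
      have h1 := hmem _ _ h0 (hnear (ε / 2) 0 0 hε2 (by simpa using hε) (by simpa using hε))
      have e : (P (z0.1 + 0, z0.2.1 + 0, z0.2.2 + 0))⁻¹ * P (z0.1 + ε / 2, z0.2.1 + 0, z0.2.2 + 0) =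
          (be z0.2.1 z0.2.2)⁻¹ * al (ε / 2) 0 * be z0.2.1 z0.2.2 := by
        show (al (z0.1 + 0) 0 * be (z0.2.1 + 0) (z0.2.2 + 0))⁻¹ *
          (al (z0.1 + ε / 2) 0 * be (z0.2.1 + 0) (z0.2.2 + 0)) = _
        simp only [add_zero]
        have e1 : (al z0.1 0 * be z0.2.1 z0.2.2)⁻¹ * (al (z0.1 + ε / 2) 0 * be z0.2.1 z0.2.2) =
          (be z0.2.1 z0.2.2)⁻¹ * ((al z0.1 0)⁻¹ * al (z0.1 + ε / 2) 0) * be z0.2.1 z0.2.2 := by group
        have e2 : (al z0.1 0)⁻¹ * al (z0.1 + ε / 2) 0 = al (ε / 2) 0 := by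
          rw [al_inv, al_mul]; congr 1 <;> ring
        rw [e1, e2]
      rw [e] at h1
      have h2 := mul_mem (mul_mem (hbe z0.2.1 z0.2.2) h1) (inv_mem (hbe z0.2.1 z0.2.2))
      have e3 : be z0.2.1 z0.2.2 * ((be z0.2.1 z0.2.2)⁻¹ * al (ε / 2) 0 * be z0.2.1 z0.2.2) *
        (be z0.2.1 z0.2.2)⁻¹ = al (ε / 2) 0 := by group
      rwa [e3] at h2
    obtain ⟨hW, hV⟩ := lim_mem (cjN_closed _ _) hbe (by positivity : ε / 2 ≠ 0) hal
    have htop : N = ⊤ := top_of_unip (fun j => conj_W (L i) γ 2 j hW) (fun j => conj_V (L i) γ 2 j hV)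
    exact hL i (grp_top_of_real_top _ (cjN_top htop))

end Pool.Agent.TH225.OC
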